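import Pool.Agent.Y264.QR.All

/-!
# Stability of eigenspaces, rotations inside an eigenspace (helper66)
-/

set_option autoImplicit false

open Set Filter Topology

noncomputable section

namespace Pool.Agent.K4H66.QU

open Pool.Agent.Y262.QE Pool.Agent.Y264.QR

section forms

variable {H : Type} [NormedAddCommGroup H] [InnerProductSpace ℝ H]

/-- Cauchy-Schwarz for a form which is dominated by another -/
theorem cs {b r : H →L[ℝ] H →L[ℝ] ℝ} (sr : ∀ u v, r u v = r v u) (sb : ∀ u v, b u v = b v u)
    {K : ℝ} (h : ∀ v, |r v v| ≤ K * b v v) (u v : H) :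
    (r u v) ^ 2 ≤ K ^ 2 * (b u u * b v v) := by
  have key : ∀ x : ℝ, 0 ≤ (K * b v v) * (x * x) + (-(2 * r u v)) * x + K * b u u := by
    intro x
    have h1 := h (u + x • v)
    have h2 := h (u - x • v)
    have e1 : r (u + x • v) (u + x • v) = r u u + 2 * x * r u v + x ^ 2 * r v v := by
      simp only [map_add, map_smul, ContinuousLinearMap.add_apply,
        ContinuousLinearMap.smul_apply, smul_eq_mul, sr v u]
      ring
    have e2 : r (u - x • v) (u - x • v) = r u u - 2 * x * r u v + x ^ 2 * r v v := by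
      simp only [map_sub, map_smul, ContinuousLinearMap.sub_apply,
        ContinuousLinearMap.smul_apply, smul_eq_mul, sr v u]
      ring
    have e3 : b (u + x • v) (u + x • v) = b u u + 2 * x * b u v + x ^ 2 * b v v := by
      simp only [map_add, map_smul, ContinuousLinearMap.add_apply,
        ContinuousLinearMap.smul_apply, smul_eq_mul, sb v u]
      ring
    have e4 : b (u - x • v) (u - x • v) = b u u - 2 * x * b u v + x ^ 2 * b v v := by
      simp only [map_sub, map_smul, ContinuousLinearMap.sub_apply,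
        ContinuousLinearMap.smul_apply, smul_eq_mul, sb v u]
      ring
    rw [e1, e3] at h1
    rw [e2, e4] at h2
    have h3 := (abs_le.1 h1).2
    have h4 := (abs_le.1 h2).1
    nlinarith
  have hd := discrim_le_zero key
  unfold discrim at hd
  nlinarith

theorem b_null {b : H →L[ℝ] H →L[ℝ] ℝ} (sb : ∀ u v, b u v = b v u) (nb : ∀ v, 0 ≤ b v v)
    {n : H} (hn : b n n = 0) (v : H) : b n v = 0 := by
  have h := cs sb sb (K := 1) (fun v => by rw [abs_of_nonneg (nb v), one_mul]) n v
  rw [hn] at h
  have h2 : (b n v) ^ 2 ≤ 0 := by linarith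
  exact pow_eq_zero_iff (two_ne_zero) |>.1 (le_antisymm h2 (sq_nonneg _))

/-- an eigenbasis can be rotated inside an eigenspace so that it contains a given vector -/
theorem rot {a b : H →L[ℝ] H →L[ℝ] ℝ} (hF : Fm a b) {e : ℕ → H} {E : ℕ → ℝ} (hE : Eg a b e E)
    (j : ℕ) {w : H} (hw : b w w = 1) (haw : ∀ z, a w z = E j * b w z) :
    ∃ e' : ℕ → H, Eg a b e' E ∧ e' j = w := by
  set n : H := e j - w with hn
  have han : ∀ z, a n z = E j * b n z := by
    intro z
    rw [hn]
    simp only [map_sub, ContinuousLinearMap.sub_apply, hE.eig, haw]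
    ring
  by_cases h0 : b n n = 0
  · have hn0 : n = 0 := by
      obtain ⟨c, hc, hco⟩ := hF.co
      have h1 := hco n
      rw [han, h0] at h1
      have h2 : ‖n‖ ^ 2 ≤ 0 := by nlinarith [sq_nonneg ‖n‖]
      have h3 : ‖n‖ ^ 2 = 0 := le_antisymm h2 (sq_nonneg _)
      exact norm_eq_zero.1 (pow_eq_zero_iff two_ne_zero |>.1 h3)
    refine ⟨e, hE, ?_⟩
    rw [← sub_eq_zero]
    exact hn0
  · have hejj : b (e j) (e j) = 1 := by rw [hE.orth, if_pos rfl]
    have hnn : b n n = 2 * b (e j) n := by
      have h1 : b n n = b (e j) (e j) - 2 * b (e j) w + b w w := by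
        rw [hn]
        simp only [map_sub, ContinuousLinearMap.sub_apply, hF.sb w (e j)]
        ring
      have h2 : b (e j) n = b (e j) (e j) - b (e j) w := by rw [hn, map_sub]
      rw [h1, h2, hejj, hw]
      ring
    let R : H → H := fun v => v - (2 * b v n / b n n) • n
    have hR1 : ∀ u v, b (R u) v = b u (R v) := by
      intro u v
      simp only [R, map_sub, map_smul, ContinuousLinearMap.sub_apply,
        ContinuousLinearMap.smul_apply, smul_eq_mul, hF.sb n v]
      ring
    have hRR : ∀ v, R (R v) = v := by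
      intro v
      have e1 : b (R v) n = - b v n := by
        simp only [R, map_sub, map_smul, ContinuousLinearMap.sub_apply,
          ContinuousLinearMap.smul_apply, smul_eq_mul]
        field_simp
        ring
      show R v - (2 * b (R v) n / b n n) • n = v
      rw [e1]
      show v - (2 * b v n / b n n) • n - (2 * - b v n / b n n) • n = v
      have e2 : (2 * - b v n / b n n) = -(2 * b v n / b n n) := by ring
      rw [e2, neg_smul]
      abel
    have hR2 : ∀ u v, b (R u) (R v) = b u v := by
      intro u v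
      rw [hR1, hRR]
    have hperp : ∀ l, E l ≠ E j → b (e l) n = 0 := by
      intro l hl
      have h1 := hE.eig l n
      have h2 := han (e l)
      rw [hF.sa, h1, hF.sb n] at h2
      have h3 : (E l - E j) * b (e l) n = 0 := by linarith
      exact (mul_eq_zero.1 h3).resolve_left (sub_ne_zero.2 hl)
    refine ⟨fun l => R (e l), ⟨?_, ?_, hE.mono, hE.tt, ?_⟩, ?_⟩
    · intro p q
      show b (R (e p)) (R (e q)) = _
      rw [hR2, hE.orth]
    · intro l z
      show a (R (e l)) z = E l * b (R (e l)) z
      by_cases hl : E l = E j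
      · simp only [R, map_sub, map_smul, ContinuousLinearMap.sub_apply,
          ContinuousLinearMap.smul_apply, smul_eq_mul, hE.eig, han, hl]
        ring
      · have h1 : R (e l) = e l := by
          show e l - (2 * b (e l) n / b n n) • n = e l
          rw [hperp l hl]
          simp
        rw [h1, hE.eig]
    · intro v
      have h1 := hE.sum (R v)
      rw [hR2] at h1
      convert h1 using 2 with l
      rw [hR1 v (e l)]
    · show e j - (2 * b (e j) n / b n n) • n = w
      rw [← hnn, div_self h0, one_smul, hn]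
      abel

/-- the eigenspace is finite dimensional and isolated -/
theorem gap {a b : H →L[ℝ] H →L[ℝ] ℝ} {e : ℕ → H} {E : ℕ → ℝ} (hE : Eg a b e E) (j : ℕ) :
    ∃ (C : Finset ℕ) (g : ℝ), (∀ l, l ∈ C ↔ E l = E j) ∧ 0 < g ∧ g ≤ 1 ∧
      ∀ l, l ∉ C → g ≤ |E l - E j| := by
  classical
  obtain ⟨N, hN⟩ := eventually_atTop.1 (hE.tt.eventually_ge_atTop (E j + 1))
  let C : Finset ℕ := (Finset.range N).filter fun l => E l = E j
  obtain ⟨g, hg, hg'⟩ := Pool.Agent.Y726.QE.exists_gap
    ((Finset.range N).filter fun l => E l ≠ E j) (fun l => |E l - E j|) (fun l hl => by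
      rw [abs_pos]
      exact sub_ne_zero.2 (Finset.mem_filter.1 hl).2)
  have hC : ∀ l, l ∈ C ↔ E l = E j := by
    intro l
    simp only [C, Finset.mem_filter, Finset.mem_range]
    refine ⟨fun h => h.2, fun h => ⟨?_, h⟩⟩
    by_contra hcon
    have := hN l (not_lt.1 hcon)
    linarith
  refine ⟨C, min g 1, hC, lt_min hg one_pos, min_le_right _ _, fun l hl => ?_⟩
  rw [hC] at hl
  rcases lt_or_ge l N with h | h
  · exact (min_le_left _ _).trans (hg' l (Finset.mem_filter.2 ⟨Finset.mem_range.2 h, hl⟩))
  · refine (min_le_right _ _).trans ?_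
    have := hN l h
    rw [abs_of_nonneg (by linarith)]
    linarith

theorem fsum_left (b : H →L[ℝ] H →L[ℝ] ℝ) (F : Finset ℕ) (c : ℕ → ℝ) (e : ℕ → H) (w : H) :
    b (∑ l ∈ F, c l • e l) w = ∑ l ∈ F, c l * b (e l) w := by
  rw [map_sum, ContinuousLinearMap.sum_apply]
  refine Finset.sum_congr rfl fun l _ => ?_
  rw [map_smul, ContinuousLinearMap.smul_apply, smul_eq_mul]

theorem fsum_right (b : H →L[ℝ] H →L[ℝ] ℝ) (F : Finset ℕ) (c : ℕ → ℝ) (e : ℕ → H) (w : H) :
    b w (∑ l ∈ F, c l • e l) = ∑ l ∈ F, c l * b w (e l) := by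
  rw [map_sum]
  refine Finset.sum_congr rfl fun l _ => ?_
  rw [map_smul, smul_eq_mul]

theorem fsum_self (b : H →L[ℝ] H →L[ℝ] ℝ) (F : Finset ℕ) (c : ℕ → ℝ) {e : ℕ → H}
    (ho : ∀ i j, b (e i) (e j) = if i = j then 1 else 0) :
    b (∑ l ∈ F, c l • e l) (∑ l ∈ F, c l • e l) = ∑ l ∈ F, c l ^ 2 := by
  classical
  rw [fsum_left]
  refine Finset.sum_congr rfl fun l hl => ?_
  rw [fsum_right]
  have : ∀ m ∈ F, c m * b (e l) (e m) = if l = m then c m else 0 := by
    intro m _
    rw [ho]
    split_ifs <;> simp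
  rw [Finset.sum_congr rfl this, Finset.sum_ite_eq, if_pos hl]
  ring

/-- Bessel's inequality for a dominated form -/
theorem bessel {b r : H →L[ℝ] H →L[ℝ] ℝ} (sr : ∀ u v, r u v = r v u) (sb : ∀ u v, b u v = b v u)
    {K : ℝ} (h : ∀ v, |r v v| ≤ K * b v v) {e : ℕ → H}
    (ho : ∀ i j, b (e i) (e j) = if i = j then 1 else 0) (v : H) (F : Finset ℕ) :
    ∑ l ∈ F, (r v (e l)) ^ 2 ≤ K ^ 2 * b v v := by
  set z : H := ∑ l ∈ F, (r v (e l)) • e l with hz
  set S := ∑ l ∈ F, (r v (e l)) ^ 2 with hS
  have h1 : r v z = S := by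
    rw [hz, fsum_right r F (fun l => r v (e l))]
    refine Finset.sum_congr rfl fun l _ => ?_
    ring
  have h2 : b z z = S := by
    rw [hz, fsum_self b F (fun l => r v (e l)) ho]
  have h3 := cs sr sb h v z
  rw [h1, h2] at h3
  have hS0 : 0 ≤ S := Finset.sum_nonneg fun l _ => sq_nonneg _
  rcases hS0.eq_or_lt with h4 | h4
  · rw [← h4]
    have h5 := h v
    have h6 : 0 ≤ K * b v v := (abs_nonneg _).trans h5
    rcases eq_or_ne (b v v) 0 with h7 | h7
    · rw [h7]; simp
    · by_contra hcon
      push Not at hcon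
      have h8 : K ^ 2 * b v v < 0 := hcon
      have h9 : b v v < 0 := by
        by_contra h10
        push Not at h10
        have : 0 ≤ K ^ 2 * b v v := by positivity
        linarith
      have h3' := cs sr sb h v v
      -- b v v < 0 is impossible together with the norm of e
      have h11 := h (e 0)
      rw [ho, if_pos rfl, mul_one] at h11
      have hK : 0 ≤ K := (abs_nonneg _).trans h11
      have h12 : K * b v v ≤ 0 := mul_nonpos_of_nonneg_of_nonpos hK h9.le
      have h13 : K * b v v = 0 := le_antisymm h12 h6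
      rcases mul_eq_zero.1 h13 with h14 | h14
      · rw [h14] at h8
        simp at h8
      · exact h7 h14
  · have h5 : S * S ≤ (K ^ 2 * b v v) * S := by nlinarith
    exact le_of_mul_le_mul_right h5 h4

end forms

end Pool.Agent.K4H66.QU
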