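import Pool.Agent.K4H66.QU.Gen

/-!
# Almost every metric; convex hulls; transfer to surfaces (helper66)
-/

set_option autoImplicit false

open Set Filter Topology MeasureTheory
open scoped Real

noncomputable section

namespace Pool.Agent.K4H66.QU

open Pool.Agent.Y262.QE Pool.Agent.Y264.QR

section ae

variable {M : Type} [MetricSpace M] [CompactSpace M] [MeasurableSpace M] [BorelSpace M]
  {μ : Measure M} [IsFiniteMeasure μ] {H : Type} [NormedAddCommGroup H] [InnerProductSpace ℝ H]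
  {i : H →L[ℝ] Lp ℝ 2 μ} {a : H →L[ℝ] H →L[ℝ] ℝ} {b : C(M, ℝ) → H →L[ℝ] H →L[ℝ] ℝ}

/-- for almost every metric the masses along a sequence of indices are infinitely often not much
smaller than the mean value, for every eigenbasis -/
theorem Ctx.aeHull (h : Ctx μ i a b) [MeasurableSpace C(M, ℝ)] [BorelSpace C(M, ℝ)]
    (P : Measure C(M, ℝ)) [IsProbabilityMeasure P] (S : Set C(M, ℝ))
    (hS : Dense (Submodule.span ℝ S : Set C(M, ℝ)))
    (hP : ∀ h ∈ S, ∀ t : ℝ, P.map (fun φ => φ + t • h) ≪ P) {J : ℕ → ℕ}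
    (hJ : Tendsto J atTop atTop) :
    ∀ᵐ φ ∂P, ∀ (e : ℕ → H) (E : ℕ → ℝ), Eg a (b φ) e E → ∀ (f : C(M, ℝ)) (ε : ℝ), 0 < ε →
      ∀ K : ℕ, ∃ k, K ≤ k ∧ avg μ f φ - ε ≤ kap μ i f φ (e (J k)) := by
  classical
  let F : ℕ → C(M, ℝ) := TopologicalSpace.denseSeq C(M, ℝ)
  have hF : DenseRange F := TopologicalSpace.denseRange_denseSeq _
  have key : ∀ (f : C(M, ℝ)) (ε : ℝ), 0 < ε → ∀ K : ℕ,
      ∀ᵐ φ ∂P, ∀ (e : ℕ → H) (E : ℕ → ℝ), Eg a (b φ) e E →
        ∃ k, K ≤ k ∧ avg μ f φ - ε ≤ kap μ i f φ (e (J k)) := by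
    intro f ε hε K
    -- an adversarial choice of bases
    have h1 : ∀ φ, ∃ (e : ℕ → H) (E : ℕ → ℝ), Eg a (b φ) e E ∧
        ((∃ (e' : ℕ → H) (E' : ℕ → ℝ), Eg a (b φ) e' E' ∧
          ∀ k, K ≤ k → kap μ i f φ (e' (J k)) < avg μ f φ - ε) →
          ∀ k, K ≤ k → kap μ i f φ (e (J k)) < avg μ f φ - ε) := by
      intro φ
      by_cases hb : ∃ (e' : ℕ → H) (E' : ℕ → ℝ), Eg a (b φ) e' E' ∧
          ∀ k, K ≤ k → kap μ i f φ (e' (J k)) < avg μ f φ - ε
      · obtain ⟨e', E', hE', hk⟩ := hb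
        exact ⟨e', E', hE', fun _ => hk⟩
      · obtain ⟨e, E, hE⟩ := h.ex φ
        exact ⟨e, E, hE, fun h => absurd h hb⟩
    choose e E hE hbad using h1
    obtain ⟨⟨J₁, hJ₁⟩, hA⟩ := tAbs M μ H i a b h.sf h.isb h.wl e E hE P S hS hP
    obtain ⟨hw, -⟩ := hA f
    obtain ⟨K', hK'⟩ := eventually_atTop.1 (hJ.eventually_ge_atTop J₁)
    set A : Set C(M, ℝ) := {φ | ∀ k, max K K' ≤ k → kap μ i f φ (e φ (J k)) < avg μ f φ - ε} with hAdef
    have hAm : NullMeasurableSet A P := by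
      have e1 : A = ⋂ k, ⋂ (_ : max K K' ≤ k), {φ | kap μ i f φ (e φ (J k)) < avg μ f φ - ε} := by
        ext φ
        simp [hAdef]
      rw [e1]
      refine NullMeasurableSet.iInter fun k => NullMeasurableSet.iInter fun hk => ?_
      refine nullMeasurableSet_lt (hJ₁ f (J k) (hK' k ((le_max_right _ _).trans hk))).aemeasurable ?_
      exact ((avg_cont (μ := μ) f).measurable.sub_const ε).aemeasurable
    have hAz : P A = 0 := by
      have hχ : Integrable (A.indicator fun _ => (1 : ℝ)) P :=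
        (integrable_const (1 : ℝ)).indicator₀ hAm
      have h2 := (hw _ hχ).comp hJ
      have h3 : ∀ᶠ k in atTop, ∫ φ, A.indicator (fun _ => (1 : ℝ)) φ *
          kap μ i f φ (e φ (J k)) ∂P ≤
          (∫ φ, A.indicator (fun _ => (1 : ℝ)) φ * avg μ f φ ∂P) - ε * P.real A := by
        filter_upwards [eventually_ge_atTop (max K K')] with k hk
        have e2 : ε * P.real A = ∫ φ, A.indicator (fun _ => (1 : ℝ)) φ * ε ∂P := by
          rw [integral_mul_const, integral_indicator₀ hAm, setIntegral_const, smul_eq_mul, mul_one]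
          ring
        have hI1 : Integrable (fun φ => A.indicator (fun _ => (1 : ℝ)) φ * avg μ f φ) P :=
          hχ.mul_bdd (c := ‖f‖) (avg_cont (μ := μ) f).measurable.aestronglyMeasurable
            (Eventually.of_forall fun φ => by rw [Real.norm_eq_abs]; exact avg_abs f φ)
        have hI2 : Integrable (fun φ => A.indicator (fun _ => (1 : ℝ)) φ * ε) P := hχ.mul_const ε
        have hI3 : Integrable (fun φ => A.indicator (fun _ => (1 : ℝ)) φ *
            kap μ i f φ (e φ (J k))) P :=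
          hχ.mul_bdd (c := ‖f‖) (hJ₁ f (J k) (hK' k ((le_max_right _ _).trans hk)))
            (Eventually.of_forall fun φ => by
              rw [Real.norm_eq_abs]
              have h4 := h.kap_abs f φ (e φ (J k))
              rwa [(hE φ).orth, if_pos rfl, mul_one] at h4)
        rw [e2, ← integral_sub hI1 hI2]
        refine integral_mono hI3 (hI1.sub hI2) fun φ => ?_
        by_cases hφ : φ ∈ A
        · simp only [indicator_of_mem hφ, one_mul]
          exact (hφ k hk).le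
        · simp only [indicator_of_notMem hφ, zero_mul, sub_zero, le_refl]
      have h4 := le_of_tendsto h2 h3
      have h5 : ε * P.real A ≤ 0 := by linarith
      have h6 : P.real A ≤ 0 := by
        by_contra hcon
        push Not at hcon
        have : 0 < ε * P.real A := mul_pos hε hcon
        linarith
      have h7 : P.real A = 0 := le_antisymm h6 measureReal_nonneg
      rwa [measureReal_eq_zero_iff] at h7
    have h8 : ∀ᵐ φ ∂P, φ ∉ A := measure_eq_zero_iff_ae_notMem.1 hAz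
    filter_upwards [h8] with φ hφ
    intro e' E' hE'
    by_contra hcon
    push Not at hcon
    exact hφ fun k hk => hbad φ ⟨e', E', hE', hcon⟩ k ((le_max_left _ _).trans hk)
  have hall : ∀ᵐ φ ∂P, ∀ n m K : ℕ, ∀ (e : ℕ → H) (E : ℕ → ℝ), Eg a (b φ) e E →
        ∃ k, K ≤ k ∧ avg μ (F n) φ - 1 / ((m : ℝ) + 1) ≤ kap μ i (F n) φ (e (J k)) :=
    ae_all_iff.2 fun n => ae_all_iff.2 fun m => ae_all_iff.2 fun K =>
      key (F n) _ (by positivity) K
  filter_upwards [hall] with φ hφ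
  intro e E hE f ε hε K
  obtain ⟨_, h1, n, rfl⟩ := Metric.dense_iff.1 hF f (ε / 4) (by positivity)
  rw [Metric.mem_ball, dist_eq_norm] at h1
  obtain ⟨m, hm⟩ := exists_nat_one_div_lt (show (0 : ℝ) < ε / 2 by positivity)
  obtain ⟨k, hk, hv⟩ := hφ n m K e E hE
  refine ⟨k, hk, ?_⟩
  have h3 := (abs_le.1 (h.kap_sub_le (F n) f φ (h.isV hE (J k)))).2
  have h4 := (abs_le.1 (avg_sub_le (μ := μ) (F n) f φ)).1
  linarith

end ae

section hull

variable {V : Type} [AddCommGroup V] [Module ℝ V]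

/-- the finite convex combinations -/
theorem hull_of (A : ℕ → V →ₗ[ℝ] ℝ) (m : V →ₗ[ℝ] ℝ)
    (h : ∀ (f : V) (ε : ℝ), 0 < ε → ∀ K : ℕ, ∃ k, K ≤ k ∧ m f - ε ≤ A k f)
    (F : Finset V) {ε : ℝ} (hε : 0 < ε) (K : ℕ) :
    ∃ (s : Finset ℕ) (w : ℕ → ℝ), (∀ k ∈ s, K ≤ k ∧ 0 ≤ w k) ∧ ∑ k ∈ s, w k = 1 ∧
      ∀ f ∈ F, |∑ k ∈ s, w k * A k f - m f| ≤ ε := by
  classical
  let p : ℕ → (F → ℝ) := fun k f => A k f
  let q : F → ℝ := fun f => m f
  let C : Set (F → ℝ) := {y | ∃ (s : Finset ℕ) (w : ℕ → ℝ), (∀ k ∈ s, K ≤ k ∧ 0 ≤ w k) ∧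
    ∑ k ∈ s, w k = 1 ∧ y = ∑ k ∈ s, w k • p k}
  have hpC : ∀ k, K ≤ k → p k ∈ C := fun k hk =>
    ⟨{k}, fun _ => 1, fun l hl => by rw [Finset.mem_singleton.1 hl]; exact ⟨hk, zero_le_one⟩,
      by simp, by simp⟩
  have hCc : Convex ℝ C := by
    rintro _ ⟨s₁, w₁, h1, h2, rfl⟩ _ ⟨s₂, w₂, h3, h4, rfl⟩ α β hα hβ hαβ
    refine ⟨s₁ ∪ s₂, fun k => α * (if k ∈ s₁ then w₁ k else 0) + β * (if k ∈ s₂ then w₂ k else 0),
      ?_, ?_, ?_⟩
    · intro k hk
      refine ⟨?_, ?_⟩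
      · rcases Finset.mem_union.1 hk with h | h
        · exact (h1 k h).1
        · exact (h3 k h).1
      · refine add_nonneg (mul_nonneg hα ?_) (mul_nonneg hβ ?_)
        · split_ifs with h
          · exact (h1 k h).2
          · exact le_rfl
        · split_ifs with h
          · exact (h3 k h).2
          · exact le_rfl
    · rw [Finset.sum_add_distrib, ← Finset.mul_sum, ← Finset.mul_sum, Finset.sum_ite_mem,
        Finset.sum_ite_mem, Finset.union_inter_cancel_left, Finset.union_inter_cancel_right, h2, h4]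
      linarith
    · have e1 : ∀ k, (α * (if k ∈ s₁ then w₁ k else 0) + β * (if k ∈ s₂ then w₂ k else 0)) • p k =
          α • (if k ∈ s₁ then w₁ k • p k else 0) + β • (if k ∈ s₂ then w₂ k • p k else 0) := by
        intro k
        split_ifs <;> simp [add_smul, mul_smul]
      simp_rw [e1]
      rw [Finset.sum_add_distrib, ← Finset.smul_sum, ← Finset.smul_sum, Finset.sum_ite_mem,
        Finset.sum_ite_mem, Finset.union_inter_cancel_left, Finset.union_inter_cancel_right]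
  have hq : q ∈ closure C := by
    by_contra hcon
    obtain ⟨ℓ, u, hℓ1, hℓ2⟩ := geometric_hahn_banach_closed_point hCc.closure isClosed_closure hcon
    let g : V := ∑ f : F, ℓ (Pi.single f 1) • (f : V)
    have hlin : ∀ B : V →ₗ[ℝ] ℝ, ℓ (fun f => B f) = B g := by
      intro B
      have e1 : (fun f : F => B (f : V)) = ∑ f : F, B (f : V) • (Pi.single f 1 : F → ℝ) := by
        funext x
        simp [Finset.sum_apply, Pi.single_apply]
      rw [e1, map_sum, map_sum]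
      refine Finset.sum_congr rfl fun f _ => ?_
      rw [map_smul, map_smul, smul_eq_mul, smul_eq_mul, mul_comm]
    have h1 : ∀ k, K ≤ k → A k g < u := by
      intro k hk
      have := hℓ1 (p k) (subset_closure (hpC k hk))
      rwa [hlin (A k)] at this
    have h2 : u < m g := by
      rwa [hlin m] at hℓ2
    obtain ⟨k, hk, h3⟩ := h g (m g - u) (by linarith) K
    have := h1 k hk
    linarith
  obtain ⟨y, ⟨s, w, h1, h2, rfl⟩, h3⟩ := Metric.mem_closure_iff.1 hq ε hε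
  refine ⟨s, w, h1, h2, fun f hf => ?_⟩
  have h4 : dist (q ⟨f, hf⟩) ((∑ k ∈ s, w k • p k) ⟨f, hf⟩) < ε :=
    lt_of_le_of_lt (dist_le_pi_dist _ _ _) h3
  rw [Real.dist_eq, abs_sub_comm] at h4
  have e1 : (∑ k ∈ s, w k • p k) ⟨f, hf⟩ = ∑ k ∈ s, w k * A k f := by
    rw [Finset.sum_apply]
    refine Finset.sum_congr rfl fun k _ => ?_
    rw [Pi.smul_apply, smul_eq_mul]
  rw [e1] at h4
  exact h4.le

end hull

section surf

variable {M : Type} [MetricSpace M] [CompactSpace M] [MeasurableSpace M] [BorelSpace M]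

/-- the forms of a closed surface -/
theorem transfer [Nonempty M] (μ : Measure M) [IsFiniteMeasure μ] (D : Data M)
    (hD : D.IsSurf μ) :
    ∃ (i : HF D μ →L[ℝ] Lp ℝ 2 μ) (a : HF D μ →L[ℝ] HF D μ →L[ℝ] ℝ)
      (b : C(M, ℝ) → HF D μ →L[ℝ] HF D μ →L[ℝ] ℝ), Ctx μ i a b ∧
      ∀ (φ : C(M, ℝ)) (u : ℕ → M → ℝ) (lam : ℕ → ℝ),
        EigBasis (D.conf fun x => Real.exp (φ x)) (wm μ fun x => Real.exp (φ x)) u lam →
        ∃ e : ℕ → HF D μ, Eg a (b φ) e lam ∧ ∀ (f : C(M, ℝ)) (j : ℕ),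
          kap μ i f φ (e j) = ∫ x, f x * (u j x) ^ 2 ∂(wm μ fun x => Real.exp (φ x)) := by
  obtain ⟨i, a, hSf, hi, ha⟩ := tPackF M μ D hD inferInstance
  obtain ⟨b, hB, hF, -, -, -⟩ := tFm M μ (HF D μ) i a hSf
  have hW := tWl M μ D hD inferInstance i a b hSf hi ha hB
  refine ⟨i, a, b, Ctx.mk' hSf hB hW ?_, ?_⟩
  · intro φ _
    obtain ⟨u, lam, hu⟩ := tEx M μ D hD inferInstance φ
    obtain ⟨e, -, he2⟩ := tBr M μ D hD i a b hSf hi ha hB hF φ u lam hu
    exact ⟨e, lam, he2⟩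
  · intro φ u lam hu
    obtain ⟨e, he1, he2⟩ := tBr M μ D hD i a b hSf hi ha hB hF φ u lam hu
    exact ⟨e, he2, fun f j => kap_eq μ i f φ _ _ (he1 j)⟩

end surf

end Pool.Agent.K4H66.QU
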