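import Pool.Agent.K4H66.QU.Ctx

/-!
# Masses of eigenfunctions along segments of metrics (helper66)
-/

set_option autoImplicit false

open Set Filter Topology MeasureTheory
open scoped Real

noncomputable section

namespace Pool.Agent.K4H66.QU

open Pool.Agent.Y262.QE Pool.Agent.Y264.QR

theorem der_le {G : ℝ → ℝ} {d c : ℝ} (hG : HasDerivAt G d 0) {δ : ℝ} (hδ : 0 < δ)
    (h : ∀ τ, 0 < τ → τ < δ → G τ ≤ G 0 + c * τ) : d ≤ c := by
  have h1 := hasDerivAt_iff_tendsto_slope_zero.1 hG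
  have h2 : Tendsto (fun t : ℝ => t⁻¹ • (G (0 + t) - G 0)) (𝓝[>] 0) (𝓝 d) :=
    h1.mono_left (nhdsWithin_mono _ fun x hx => (ne_of_gt hx))
  refine le_of_tendsto h2 ?_
  filter_upwards [Ioo_mem_nhdsGT hδ] with t ht
  have h3 := h t ht.1 ht.2
  rw [zero_add, smul_eq_mul, inv_mul_eq_div, div_le_iff₀ ht.1]
  linarith

variable {M : Type} [MetricSpace M] [CompactSpace M] [MeasurableSpace M] [BorelSpace M]
  {μ : Measure M} [IsFiniteMeasure μ] {H : Type} [NormedAddCommGroup H] [InnerProductSpace ℝ H]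
  {i : H →L[ℝ] Lp ℝ 2 μ} {a : H →L[ℝ] H →L[ℝ] ℝ} {b : C(M, ℝ) → H →L[ℝ] H →L[ℝ] ℝ}

/-- a choice of eigenbases which contain given eigenvectors -/
theorem Ctx.sel (h : Ctx μ i a b) (φ f : C(M, ℝ)) (j : ℕ) (P : ℝ → H → Prop) (S : Set ℝ)
    (hP : ∀ t ∈ S, ∃ v, IsV a b (φ + t • f) j v ∧ P t v) :
    ∃ (e : ℝ → ℕ → H) (E : ℝ → ℕ → ℝ), (∀ t, Eg a (b (φ + t • f)) (e t) (E t)) ∧
      ∀ t ∈ S, P t (e t j) := by
  have h1 : ∀ t, ∃ (e : ℕ → H) (E : ℕ → ℝ), Eg a (b (φ + t • f)) e E ∧ (t ∈ S → P t (e j)) := by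
    intro t
    by_cases ht : t ∈ S
    · obtain ⟨v, hv, hvP⟩ := hP t ht
      obtain ⟨e, E, hE, hej⟩ := h.rot hv
      exact ⟨e, E, hE, fun _ => by rw [hej]; exact hvP⟩
    · obtain ⟨e, E, hE⟩ := h.ex (φ + t • f)
      exact ⟨e, E, hE, fun h => absurd h ht⟩
  choose e E hE hP' using h1
  exact ⟨e, E, hE, hP'⟩

theorem Ctx.kint (h : Ctx μ i a b) {j : ℕ} (hj : ∀ ψ, 0 < Ev a (b ψ) j) (φ f : C(M, ℝ))
    {e : ℝ → ℕ → H} {E : ℝ → ℕ → ℝ} (hE : ∀ t, Eg a (b (φ + t • f)) (e t) (E t)) (α β : ℝ) :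
    IntervalIntegrable (fun t : ℝ => kap μ i f (φ + t • f) (e t j)) volume α β := by
  obtain ⟨h1, h2, -⟩ := h.ftc hj φ f hE
  rw [intervalIntegrable_iff]
  refine Measure.integrableOn_of_bounded (M := ‖f‖) (by rw [uIoc]; exact measure_Ioc_lt_top.ne)
    h2.aestronglyMeasurable ?_
  refine ae_restrict_of_ae (h1.mono fun t ht => ?_)
  rwa [Real.norm_eq_abs]

theorem Ctx.aint (h : Ctx μ i a b) (φ f : C(M, ℝ)) (α β : ℝ) :
    IntervalIntegrable (fun t : ℝ => avg μ f (φ + t • f)) volume α β :=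
  (Pool.Agent.Y155.QR.avg_cont μ h.pos φ f).intervalIntegrable _ _

/-- Arbitrarily near there is a metric at which, for some index of the sequence, the mass of `f` is
not much smaller than the mean value, for all eigenfunctions of this index. -/
theorem Ctx.dens (h : Ctx μ i a b) (φ f : C(M, ℝ)) {J : ℕ → ℕ} (hJ : Tendsto J atTop atTop)
    {ε : ℝ} (hε : 0 < ε) (K : ℕ) {δ : ℝ} (hδ : 0 < δ) :
    ∃ t, 0 < t ∧ t < δ ∧ ∃ k, K ≤ k ∧ ∀ v, IsV a b (φ + t • f) (J k) v →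
      avg μ f (φ + t • f) - ε < kap μ i f (φ + t • f) v := by
  by_contra hcon
  push Not at hcon
  obtain ⟨J₀, hJ₀⟩ := h.J0
  have key : ∀ᶠ k in atTop, Real.log (Ev a (b φ) (J k)) - Real.log (Ev a (b (φ + δ • f)) (J k)) ≤
      Real.log (∫ x, Real.exp ((φ + δ • f) x) ∂μ) - Real.log (∫ x, Real.exp (φ x) ∂μ) - ε * δ := by
    filter_upwards [hJ.eventually_ge_atTop J₀, eventually_ge_atTop K] with k hk1 hk2
    have hpos := hJ₀ (J k) hk1
    obtain ⟨e, E, hE, hP⟩ := h.sel φ f (J k)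
      (fun t v => kap μ i f (φ + t • f) v ≤ avg μ f (φ + t • f) - ε) (Ioo 0 δ)
      (fun t ht => hcon t ht.1 ht.2 k hk2)
    obtain ⟨-, -, h3⟩ := h.ftc hpos φ f hE
    have h4 := h3 0 δ hδ.le
    have h5 := h.avgint φ f 0 δ
    simp only [zero_smul, add_zero] at h4 h5
    rw [← h4, ← h5]
    have h6 : ∫ t in (0 : ℝ)..δ, kap μ i f (φ + t • f) (e t (J k)) ≤
        ∫ t in (0 : ℝ)..δ, (avg μ f (φ + t • f) - ε) := by
      refine intervalIntegral.integral_mono_on_of_le_Ioo hδ.le (h.kint hpos φ f hE 0 δ)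
        ((h.aint φ f 0 δ).sub intervalIntegrable_const) fun t ht => hP t ht
    rw [intervalIntegral.integral_sub (h.aint φ f 0 δ) intervalIntegrable_const,
      intervalIntegral.integral_const, smul_eq_mul, sub_zero] at h6
    linarith
  have h1 := (h.wllog φ (φ + δ • f)).comp hJ
  have h2 := le_of_tendsto h1 key
  have h3 : 0 < ε * δ := by positivity
  linarith

/-- the logarithm of an eigenvalue times the area -/
def lE (μ : Measure M) (a : H →L[ℝ] H →L[ℝ] ℝ) (b : C(M, ℝ) → H →L[ℝ] H →L[ℝ] ℝ) (j : ℕ)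
    (φ : C(M, ℝ)) : ℝ :=
  Real.log (Ev a (b φ) j) + Real.log (∫ x, Real.exp (φ x) ∂μ)

theorem Ctx.bound_of (h : Ctx μ i a b) {j : ℕ} (hj : ∀ ψ, 0 < Ev a (b ψ) j) (φ f : C(M, ℝ))
    {ε α β : ℝ} (hαβ : α ≤ β) (hS : ∀ t ∈ Ioo α β, ∃ v, IsV a b (φ + t • f) j v ∧
      |kap μ i f (φ + t • f) v - avg μ f (φ + t • f)| ≤ ε) :
    |lE μ a b j (φ + β • f) - lE μ a b j (φ + α • f)| ≤ ε * (β - α) := by
  obtain ⟨e, E, hE, hP⟩ := h.sel φ f j
    (fun t v => |kap μ i f (φ + t • f) v - avg μ f (φ + t • f)| ≤ ε) (Ioo α β) hS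
  obtain ⟨-, -, h3⟩ := h.ftc hj φ f hE
  have h4 := h3 α β hαβ
  have h5 := h.avgint φ f α β
  have h6 : lE μ a b j (φ + β • f) - lE μ a b j (φ + α • f) =
      ∫ t in α..β, (avg μ f (φ + t • f) - kap μ i f (φ + t • f) (e t j)) := by
    rw [intervalIntegral.integral_sub (h.aint φ f α β) (h.kint hj φ f hE α β), h4, h5]
    unfold lE
    ring
  rw [h6, ← Real.norm_eq_abs]
  have h7 := intervalIntegral.norm_integral_le_of_norm_le_const_ae (a := α) (b := β) (C := ε)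
    (f := fun t => avg μ f (φ + t • f) - kap μ i f (φ + t • f) (e t j)) (by
      have h8 : ∀ᵐ t : ℝ, t ≠ β := by
        simp [ae_iff, measure_singleton]
      filter_upwards [h8] with t htβ ht
      rw [uIoc_of_le hαβ] at ht
      rw [Real.norm_eq_abs, abs_sub_comm]
      exact hP t ⟨ht.1, lt_of_le_of_ne ht.2 htβ⟩)
  rwa [abs_of_nonneg (by linarith)] at h7

/-- the top of a cluster -/
theorem Ctx.topidx (h : Ctx μ i a b) (φ : C(M, ℝ)) (j : ℕ) :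
    ∃ m, j ≤ m ∧ Ev a (b φ) m = Ev a (b φ) j ∧ Ev a (b φ) m < Ev a (b φ) (m + 1) := by
  obtain ⟨e, E, hE⟩ := h.ex φ
  obtain ⟨C, g, hC, -, -, -⟩ := gap hE j
  have hj : j ∈ C := (hC j).2 rfl
  refine ⟨C.max' ⟨j, hj⟩, C.le_max' j hj, ?_, ?_⟩
  · rw [h.mm hE, h.mm hE]
    exact (hC _).1 (C.max'_mem ⟨j, hj⟩)
  · rw [h.mm hE, h.mm hE]
    refine lt_of_le_of_ne (hE.mono (Nat.le_succ _)) fun hcon => ?_
    have h1 : C.max' ⟨j, hj⟩ + 1 ∈ C := by
      rw [hC, ← hcon]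
      exact (hC _).1 (C.max'_mem ⟨j, hj⟩)
    have h2 := C.le_max' _ h1
    omega

theorem Ctx.dlogA (h : Ctx μ i a b) (φ f : C(M, ℝ)) :
    HasDerivAt (fun s : ℝ => Real.log (∫ x, Real.exp ((φ + s • f) x) ∂μ)) (avg μ f φ) 0 := by
  have h1 := (Pool.Agent.Y155.QR.hdA μ φ f 0).log (h.pos (φ + (0 : ℝ) • f)).ne'
  simp only [zero_smul, add_zero] at h1
  exact h1

/-- Lipschitz bounds for the eigenvalues give bounds for the masses of all eigenfunctions. -/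
theorem Ctx.of_bound (h : Ctx μ i a b) {J : ℕ} (hJ : ∀ j, J ≤ j → ∀ ψ, 0 < Ev a (b ψ) j)
    (φ f : C(M, ℝ)) {ε δ₀ : ℝ} (hδ₀ : 0 < δ₀)
    (hL : ∀ j, J ≤ j → ∀ τ : ℝ, |τ| < δ₀ → lE μ a b j (φ + τ • f) - lE μ a b j φ ≤ ε * |τ|) :
    ∀ j, J ≤ j → ∀ v, IsV a b φ j v → |kap μ i f φ v - avg μ f φ| ≤ ε := by
  intro j hj v hv
  obtain ⟨m, hjm, hm1, hm2⟩ := h.topidx φ j
  have hposm := hJ m (hj.trans hjm)
  set κ := kap μ i f φ v with hκ
  obtain ⟨e, E, hE⟩ := h.ex φ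
  obtain ⟨k, sk, hk, -⟩ := h.ker f
  have hlam : 0 < Ev a (b φ) m := hposm φ
  set lam := Ev a (b φ) m with hlamdef
  have hEm : E m = lam := (h.mm hE m).symm
  -- the key inequality
  have key : ∀ ε' : ℝ, 0 < ε' → ∃ δ : ℝ, 0 < δ ∧ ∀ τ : ℝ, |τ| < δ →
      0 < 1 - κ * τ - ε' * |τ| ∧
      Real.log (1 - κ * τ - ε' * |τ|) + Real.log (∫ x, Real.exp ((φ + τ • f) x) ∂μ) ≤
        Real.log (∫ x, Real.exp (φ x) ∂μ) + ε * |τ| := by
    intro ε' hε'
    obtain ⟨δ, hδ, htop⟩ := top (h.fm φ) hE (sk φ) (fun u => (hk φ u).2) (m := m)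
      (by rw [← h.mm hE, ← h.mm hE]; exact hm2) hv.1
      (fun z => by rw [hEm, hm1]; exact hv.2 z) (sq_nonneg ‖f‖) (mul_pos hlam hε')
    refine ⟨min (min δ δ₀) (min (1 / (‖f‖ + 1)) (1 / (|κ| + ε' + 1))), ?_, ?_⟩
    · refine lt_min (lt_min hδ hδ₀) (lt_min ?_ ?_) <;> positivity
    intro τ hτ
    have ht1 : |τ| < δ := lt_of_lt_of_le hτ ((min_le_left _ _).trans (min_le_left _ _))
    have ht2 : |τ| < δ₀ := lt_of_lt_of_le hτ ((min_le_left _ _).trans (min_le_right _ _))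
    have ht3 : |τ| < 1 / (‖f‖ + 1) :=
      lt_of_lt_of_le hτ ((min_le_right _ _).trans (min_le_left _ _))
    have ht4 : |τ| < 1 / (|κ| + ε' + 1) :=
      lt_of_lt_of_le hτ ((min_le_right _ _).trans (min_le_right _ _))
    have ht0 := abs_nonneg τ
    have ht3' : |τ| * ‖f‖ ≤ 1 := by
      rw [lt_div_iff₀ (by positivity)] at ht3
      nlinarith [norm_nonneg f]
    have ht4' : 0 < 1 - κ * τ - ε' * |τ| := by
      rw [lt_div_iff₀ (by positivity)] at ht4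
      have h5 : κ * τ ≤ |κ| * |τ| := by
        rw [← abs_mul]
        exact le_abs_self _
      nlinarith
    refine ⟨ht4', ?_⟩
    have h1 := htop τ ht1 (b (φ + τ • f)) (h.fm _) (fun u => by
      have h2 := h.up φ f ht3' u
      rw [(hk φ u).1]
      exact h2)
    rw [(hk φ v).1, hEm] at h1
    have h2 : lam * (1 - κ * τ - ε' * |τ|) ≤ Ev a (b (φ + τ • f)) m := by
      calc _ = lam * (1 - κ * τ) - lam * ε' * |τ| := by ring
        _ ≤ _ := h1
    have h3 := Real.log_le_log (mul_pos hlam ht4') h2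
    rw [Real.log_mul hlam.ne' ht4'.ne'] at h3
    have h4 := hL m (hj.trans hjm) τ ht2
    unfold lE at h4
    linarith
  -- one-sided derivatives
  have hr : ∀ (s ε' : ℝ), 0 < ε' → (s = 1 ∨ s = -1) → s * (avg μ f φ - κ) ≤ ε + ε' := by
    intro s ε' hε' hs
    obtain ⟨δ, hδ, hk2⟩ := key ε' hε'
    have habs : ∀ τ : ℝ, 0 < τ → |s * τ| = τ := by
      intro τ hτ
      rcases hs with rfl | rfl
      · rw [one_mul, abs_of_pos hτ]
      · rw [neg_one_mul, abs_neg, abs_of_pos hτ]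
    have hd1 : HasDerivAt (fun τ : ℝ => Real.log (1 - κ * (s * τ) - ε' * τ)) (-(κ * s) - ε') 0 := by
      have e1 : HasDerivAt (fun τ : ℝ => 1 - κ * (s * τ) - ε' * τ) (-(κ * s) - ε') 0 := by
        have e2 := (((hasDerivAt_id (0 : ℝ)).const_mul s).const_mul κ).const_sub 1
        have e3 := (hasDerivAt_id (0 : ℝ)).const_mul ε'
        have e4 : HasDerivAt (fun τ : ℝ => 1 - κ * (s * τ) - ε' * τ)
            (-(κ * (s * 1)) - ε' * 1) 0 := e2.sub e3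
        rwa [mul_one, mul_one] at e4
      have e5 := e1.log (by simp)
      simpa using e5
    have hd2 : HasDerivAt (fun τ : ℝ => Real.log (∫ x, Real.exp ((φ + (s * τ) • f) x) ∂μ))
        (avg μ f φ * s) 0 := by
      have e1 := h.dlogA φ f
      have e2 : HasDerivAt (fun τ : ℝ => s * τ) s 0 := by
        simpa using (hasDerivAt_id (0 : ℝ)).const_mul s
      have e3 : HasDerivAt (fun u : ℝ => Real.log (∫ x, Real.exp ((φ + u • f) x) ∂μ))
          (avg μ f φ) (s * 0) := by rw [mul_zero]; exact e1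
      exact e3.comp 0 e2
    have h1 := der_le (hd1.add hd2) hδ (c := ε) (by
      intro τ hτ0 hτ1
      have h2 := (hk2 (s * τ) (by rw [habs τ hτ0]; exact hτ1)).2
      rw [habs τ hτ0] at h2
      simp only [Pi.add_apply, mul_zero, sub_zero, Real.log_one, zero_smul, add_zero, zero_add]
      exact h2)
    linarith
  rw [abs_le]
  constructor
  · have h1 : avg μ f φ - κ ≤ ε := le_of_forall_pos_le_add fun ε' hε' => by
      have := hr 1 ε' hε' (Or.inl rfl)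
      linarith
    linarith
  · exact le_of_forall_pos_le_add fun ε' hε' => by
      have := hr (-1) ε' hε' (Or.inr rfl)
      linarith

/-- the property passes to the closure -/
theorem Ctx.clos (h : Ctx μ i a b) (f : C(M, ℝ)) (j : ℕ) {ε ε' : ℝ} (hε : ε < ε')
    {φ : C(M, ℝ)} {S : Set C(M, ℝ)} (hS : ∀ ψ ∈ S, ∃ v, IsV a b ψ j v ∧
      |kap μ i f ψ v - avg μ f ψ| ≤ ε) (hφ : φ ∈ closure S) :
    ∃ v, IsV a b φ j v ∧ |kap μ i f φ v - avg μ f φ| ≤ ε' := by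
  obtain ⟨L, δ₀, hL, hδ₀, hn⟩ := h.near φ j
  have hc := (avg_cont (μ := μ) f).tendsto φ
  have hη : 0 < (ε' - ε) / 2 := by linarith
  rw [Metric.tendsto_nhds_nhds] at hc
  obtain ⟨δ₁, hδ₁, hc⟩ := hc _ hη
  set η := (ε' - ε) / 2 with hηdef
  have hr : 0 < min (min δ₀ δ₁) (η / ((‖f‖ + 1) * L)) := by
    refine lt_min (lt_min hδ₀ hδ₁) ?_
    positivity
  obtain ⟨ψ, hψS, hψ⟩ := Metric.mem_closure_iff.1 hφ _ hr
  rw [dist_comm] at hψ
  have h1 : dist ψ φ < δ₀ := lt_of_lt_of_le hψ ((min_le_left _ _).trans (min_le_left _ _))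
  have h2 : dist ψ φ < δ₁ := lt_of_lt_of_le hψ ((min_le_left _ _).trans (min_le_right _ _))
  have h3 : dist ψ φ < η / ((‖f‖ + 1) * L) := lt_of_lt_of_le hψ (min_le_right _ _)
  obtain ⟨v, hv, hvd⟩ := hS ψ hψS
  rw [dist_eq_norm] at h1 h3
  obtain ⟨w, hw, hwd⟩ := hn ψ h1.le v hv
  refine ⟨w, hw, ?_⟩
  have h4 := hwd f
  have h5 : ‖f‖ * (L * ‖ψ - φ‖) ≤ η := by
    rw [lt_div_iff₀ (by positivity)] at h3
    have h6 : 0 ≤ ‖ψ - φ‖ * L := by positivity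
    nlinarith [norm_nonneg f]
  have h6 := hc h2
  rw [Real.dist_eq] at h6
  have h7 : |kap μ i f φ w - avg μ f φ| ≤
      |kap μ i f ψ v - kap μ i f φ w| + |kap μ i f ψ v - avg μ f ψ| +
        |avg μ f ψ - avg μ f φ| := by
    have e1 : kap μ i f φ w - avg μ f φ = -(kap μ i f ψ v - kap μ i f φ w) +
      (kap μ i f ψ v - avg μ f ψ) + (avg μ f ψ - avg μ f φ) := by ring
    rw [e1]
    refine (abs_add_le _ _).trans (add_le_add ((abs_add_le _ _).trans (add_le_add ?_ le_rfl)) le_rfl)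
    rw [abs_neg]
  have h8 : η + ε + η = ε' := by rw [hηdef]; ring
  linarith

theorem Ctx.kap_sub_le (h : Ctx μ i a b) (f g φ : C(M, ℝ)) {j : ℕ} {v : H} (hv : IsV a b φ j v) :
    |kap μ i f φ v - kap μ i g φ v| ≤ ‖f - g‖ := by
  rw [← Pool.Agent.Y378.QR.kap_sub]
  have h1 := h.kap_abs (f - g) φ v
  rwa [hv.1, mul_one] at h1

theorem avg_sub_le (f g φ : C(M, ℝ)) : |avg μ f φ - avg μ g φ| ≤ ‖f - g‖ := by
  have h1 : avg μ (f - g) φ = avg μ f φ - avg μ g φ := by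
    have h2 := Pool.Agent.Y378.QR.avg_add (μ := μ) (f - g) g φ
    rw [sub_add_cancel] at h2
    linarith
  rw [← h1]
  exact avg_abs (f - g) φ

end Pool.Agent.K4H66.QU
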