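import Pool.Agent.K4H66.QU.Ab

/-!
# The one-sided derivatives of the largest eigenvalue of a cluster (helper66)
-/

set_option autoImplicit false

open Set Filter Topology

noncomputable section

namespace Pool.Agent.K4H66.QU

open Pool.Agent.Y262.QE Pool.Agent.Y264.QR

section real

/-- the inequality for the coefficients of `c²` -/
theorem top_c {lam κ K s ε τ Q : ℝ} (hlam : 0 ≤ lam) (hκ : |κ| ≤ K) (hs : 0 < s)
    (hε : 0 < ε) (h1 : K * |τ| ≤ 1 / 8) (hsε : 8 * lam * K * s ≤ ε) (hQ : 0 ≤ Q)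
    (hQε : 8 * lam * Q * |τ| ≤ ε) :
    (lam * (1 - κ * τ) - ε * |τ|) * (1 + τ * κ + |τ| * (K * s) + Q * τ ^ 2) ≤ lam := by
  have hK : 0 ≤ K := (abs_nonneg κ).trans hκ
  have ht := abs_nonneg τ
  have hκτ : |κ * τ| ≤ 1 / 8 := by
    rw [abs_mul]
    exact (mul_le_mul_of_nonneg_right hκ ht).trans h1
  obtain ⟨ha, hb⟩ := abs_le.1 hκτ
  have hτ2 : τ ^ 2 = |τ| * |τ| := by rw [← sq_abs]; ring
  have e0 : 0 ≤ |τ| * (K * s) := by positivity
  have e0' : 0 ≤ Q * τ ^ 2 := by positivity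
  have e1 : lam * (1 - κ * τ) * (|τ| * (K * s)) ≤ ε / 4 * |τ| := by
    have h3 : lam * (1 - κ * τ) ≤ lam * 2 := mul_le_mul_of_nonneg_left (by linarith) hlam
    calc lam * (1 - κ * τ) * (|τ| * (K * s)) ≤ lam * 2 * (|τ| * (K * s)) :=
          mul_le_mul_of_nonneg_right h3 e0
      _ = (8 * lam * K * s) / 4 * |τ| := by ring
      _ ≤ ε / 4 * |τ| := mul_le_mul_of_nonneg_right (by linarith) ht
  have e2 : lam * (1 - κ * τ) * (Q * τ ^ 2) ≤ ε / 4 * |τ| := by
    have h3 : lam * (1 - κ * τ) ≤ lam * 2 := mul_le_mul_of_nonneg_left (by linarith) hlam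
    calc lam * (1 - κ * τ) * (Q * τ ^ 2) ≤ lam * 2 * (Q * τ ^ 2) :=
          mul_le_mul_of_nonneg_right h3 e0'
      _ = (8 * lam * Q * |τ|) / 4 * |τ| := by rw [hτ2]; ring
      _ ≤ ε / 4 * |τ| := mul_le_mul_of_nonneg_right (by linarith) ht
  have e3 : ε * |τ| * (7 / 8) ≤ ε * |τ| * (1 + τ * κ + |τ| * (K * s) + Q * τ ^ 2) :=
    mul_le_mul_of_nonneg_left (by linarith) (by positivity)
  have e4 : 0 ≤ lam * (κ * τ) ^ 2 := by positivity
  have e5 : (lam * (1 - κ * τ) - ε * |τ|) * (1 + τ * κ + |τ| * (K * s) + Q * τ ^ 2) =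
      lam - lam * (κ * τ) ^ 2 + lam * (1 - κ * τ) * (|τ| * (K * s)) +
        lam * (1 - κ * τ) * (Q * τ ^ 2) -
        ε * |τ| * (1 + τ * κ + |τ| * (K * s) + Q * τ ^ 2) := by ring
  rw [e5]
  have e6 : 0 ≤ ε * |τ| := by positivity
  linarith

/-- the inequality for the other coefficients -/
theorem top_y {lam κ K s ε τ g Q : ℝ} (hlam : 0 ≤ lam) (hκ : |κ| ≤ K) (hs : 0 < s)
    (hε : 0 < ε) (hQ : 0 ≤ Q) (h1 : K * |τ| ≤ 1 / 8) (ht1 : |τ| ≤ 1)
    (h4 : lam * (K + 2 * (K * (1 + 1 / s) + Q)) * |τ| ≤ g) :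
    (lam * (1 - κ * τ) - ε * |τ|) * (1 + |τ| * (K * (1 + 1 / s)) + Q * τ ^ 2) ≤ lam + g := by
  have hK : 0 ≤ K := (abs_nonneg κ).trans hκ
  have ht := abs_nonneg τ
  have hτ2 : τ ^ 2 = |τ| * |τ| := by rw [← sq_abs]; ring
  have hκτ : -(K * |τ|) ≤ κ * τ := by
    have : |κ * τ| ≤ K * |τ| := by
      rw [abs_mul]
      exact mul_le_mul_of_nonneg_right hκ ht
    exact (abs_le.1 this).1
  have h5 : lam * (1 - κ * τ) - ε * |τ| ≤ lam * (1 + K * |τ|) := by
    have h6 := mul_le_mul_of_nonneg_left (by linarith : 1 - κ * τ ≤ 1 + K * |τ|) hlam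
    have h7 : 0 ≤ ε * |τ| := by positivity
    linarith
  set P := K * (1 + 1 / s) with hP
  have hP0 : 0 ≤ P := by positivity
  have h6 : 1 + |τ| * P + Q * τ ^ 2 ≤ 1 + |τ| * (P + Q) := by
    have h7 : Q * τ ^ 2 ≤ |τ| * Q := by
      rw [hτ2]
      have : |τ| * |τ| ≤ |τ| * 1 := mul_le_mul_of_nonneg_left ht1 ht
      have := mul_le_mul_of_nonneg_left this hQ
      linarith
    linarith
  have h7 : 0 ≤ 1 + |τ| * P + Q * τ ^ 2 := by positivity
  have h8 : 0 ≤ lam * (1 + K * |τ|) := by positivity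
  calc (lam * (1 - κ * τ) - ε * |τ|) * (1 + |τ| * P + Q * τ ^ 2)
      ≤ lam * (1 + K * |τ|) * (1 + |τ| * P + Q * τ ^ 2) := mul_le_mul_of_nonneg_right h5 h7
    _ ≤ lam * (1 + K * |τ|) * (1 + |τ| * (P + Q)) := mul_le_mul_of_nonneg_left h6 h8
    _ = lam + lam * (K + (P + Q) + K * |τ| * (P + Q)) * |τ| := by ring
    _ ≤ lam + lam * (K + 2 * (P + Q)) * |τ| := by
        have h9 : K + (P + Q) + K * |τ| * (P + Q) ≤ K + 2 * (P + Q) := by
          have : K * |τ| * (P + Q) ≤ 1 * (P + Q) :=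
            mul_le_mul_of_nonneg_right (by linarith) (by positivity)
          linarith
        have h10 := mul_le_mul_of_nonneg_left h9 hlam
        have h11 := mul_le_mul_of_nonneg_right h10 ht
        linarith
    _ ≤ lam + g := by linarith

end real

section forms

variable {H : Type} [NormedAddCommGroup H] [InnerProductSpace ℝ H]

/-- the form `a` on the orthogonal complement of the first `m` eigenvectors -/
theorem low {a b : H →L[ℝ] H →L[ℝ] ℝ} (hF : Fm a b) {e : ℕ → H} {E : ℕ → ℝ}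
    (hE : Eg a b e E) {m : ℕ} {g : ℝ} (hg : 0 ≤ g) (hgap : ∀ l, m < l → g ≤ E l - E m) {z : H}
    (hz : ∀ l, l < m → b z (e l) = 0) :
    (E m + g) * b z z - g * (b z (e m)) ^ 2 ≤ a z z := by
  have hlim := (hE.sum z).tendsto_sum_nat
  have hlim2 : Tendsto (fun n => (E m + g) * (∑ i ∈ Finset.range n, (b z (e i)) ^ 2) -
      g * (b z (e m)) ^ 2) atTop (𝓝 ((E m + g) * b z z - g * (b z (e m)) ^ 2)) :=
    (hlim.const_mul _).sub_const _
  refine le_of_tendsto' hlim2 fun n => ?_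
  have ho := Pool.Agent.Y592.QE.orth_fin b hE.orth n
  set β : Fin n → ℝ := fun i => b z (e i) with hβ
  set w : H := ∑ i, β i • e i with hw
  have hwv : a w z = ∑ i : Fin n, E i * β i ^ 2 := by
    rw [hw, Pool.Agent.Y592.QE.b_sum_left]
    apply Finset.sum_congr rfl
    intro i _
    rw [hE.eig, hF.sb]
    show β i * (E i * β i) = _
    ring
  have hww : a w w = ∑ i : Fin n, E i * β i ^ 2 := by
    rw [hw, Pool.Agent.Y592.QE.b_sum_left]
    apply Finset.sum_congr rfl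
    intro i _
    rw [hE.eig, Pool.Agent.Y592.QE.b_orth_coef b ho]
    ring
  have h1 := hF.na (z - w)
  have h2 : a (z - w) (z - w) = a z z - a w z - a z w + a w w := by
    simp only [map_sub, ContinuousLinearMap.sub_apply]
    ring
  rw [h2, hF.sa z w, hwv, hww] at h1
  have h4 : ∑ i : Fin n, E i * β i ^ 2 = ∑ i ∈ Finset.range n, E i * (b z (e i)) ^ 2 := by
    rw [Finset.sum_range]
  have h3 : (E m + g) * (∑ i ∈ Finset.range n, (b z (e i)) ^ 2) - g * (b z (e m)) ^ 2 ≤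
      ∑ i ∈ Finset.range n, E i * (b z (e i)) ^ 2 := by
    have h5 : ∀ i ∈ Finset.range n, (E m + g) * (b z (e i)) ^ 2 -
        (if i = m then g * (b z (e m)) ^ 2 else 0) ≤ E i * (b z (e i)) ^ 2 := by
      intro i _
      rcases lt_trichotomy i m with h | h | h
      · rw [if_neg h.ne, hz i h]
        simp
      · subst h
        rw [if_pos rfl]
        linarith
      · rw [if_neg h.ne']
        have := mul_le_mul_of_nonneg_right (show E m + g ≤ E i by linarith [hgap i h])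
          (sq_nonneg (b z (e i)))
        linarith
    have h6 := Finset.sum_le_sum h5
    rw [Finset.sum_sub_distrib, ← Finset.mul_sum, Finset.sum_ite_eq'] at h6
    have h7 : (if m ∈ Finset.range n then g * (b z (e m)) ^ 2 else 0) ≤ g * (b z (e m)) ^ 2 := by
      split_ifs
      · exact le_rfl
      · positivity
    linarith
  linarith

/-- the lower bound for the largest eigenvalue of a cluster -/
theorem top {a b : H →L[ℝ] H →L[ℝ] ℝ} (hF : Fm a b) {e : ℕ → H} {E : ℕ → ℝ}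
    (hE : Eg a b e E) {k : H →L[ℝ] H →L[ℝ] ℝ} {K : ℝ} (sk : ∀ u v, k u v = k v u)
    (hk : ∀ v, |k v v| ≤ K * b v v) {m : ℕ} (htop : E m < E (m + 1)) {w : H} (hw : b w w = 1)
    (haw : ∀ z, a w z = E m * b w z) {Q : ℝ} (hQ : 0 ≤ Q) {ε : ℝ} (hε : 0 < ε) :
    ∃ δ : ℝ, 0 < δ ∧ ∀ τ : ℝ, |τ| < δ → ∀ b' : H →L[ℝ] H →L[ℝ] ℝ, Fm a b' →
      (∀ v, b' v v ≤ b v v + τ * k v v + Q * τ ^ 2 * b v v) →
      E m * (1 - k w w * τ) - ε * |τ| ≤ Ev a b' m := by
  obtain ⟨e', hE', hem⟩ := rot hF hE m hw haw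
  set g := E (m + 1) - E m with hg
  have hgp : 0 < g := by linarith
  have hgap : ∀ l, m < l → g ≤ E l - E m := by
    intro l hl
    have := hE.mono (show m + 1 ≤ l by omega)
    linarith
  have hκ : |k w w| ≤ K := by
    have h1 := hk w
    rwa [hw, mul_one] at h1
  have hK : 0 ≤ K := (abs_nonneg _).trans hκ
  set lam := E m with hlam
  have hlam0 : 0 ≤ lam := by
    have h1 := hF.na (e m)
    rw [hE.eig, hE.orth, if_pos rfl, mul_one] at h1
    exact h1
  set κ := k w w with hκdef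
  set s : ℝ := ε / (8 * lam * K + ε) with hs
  have hs0 : 0 < s := by positivity
  have hsε : 8 * lam * K * s ≤ ε := by
    rw [hs, mul_div_assoc', div_le_iff₀ (by positivity)]
    have : 0 ≤ ε * ε := by positivity
    nlinarith
  refine ⟨min (min ((1 / 8) / (K + 1)) 1)
    (min (ε / (8 * lam * Q + 1)) (g / (lam * (K + 2 * (K * (1 + 1 / s) + Q)) + 1))), ?_, ?_⟩
  · refine lt_min (lt_min ?_ ?_) (lt_min ?_ ?_) <;> positivity
  intro τ hτ b' hF' hb'
  have h1 : K * |τ| ≤ 1 / 8 :=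
    Pool.Agent.Y390.QR.LIP.small hK (lt_of_lt_of_le hτ ((min_le_left _ _).trans (min_le_left _ _)))
  have h2 : |τ| ≤ 1 :=
    (lt_of_lt_of_le hτ ((min_le_left _ _).trans (min_le_right _ _))).le
  have h3 : 8 * lam * Q * |τ| ≤ ε :=
    Pool.Agent.Y390.QR.LIP.small (by positivity)
      (lt_of_lt_of_le hτ ((min_le_right _ _).trans (min_le_left _ _)))
  have h4 : lam * (K + 2 * (K * (1 + 1 / s) + Q)) * |τ| ≤ g :=
    Pool.Agent.Y390.QR.LIP.small (by positivity)
      (lt_of_lt_of_le hτ ((min_le_right _ _).trans (min_le_right _ _)))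
  have hc := top_c hlam0 hκ hs0 hε h1 hsε hQ h3
  have hy := top_y hlam0 hκ hs0 hε hQ h1 h2 h4
  set lam' := lam * (1 - κ * τ) - ε * |τ| with hlam'
  rcases lt_or_ge lam' 0 with hneg | hpos
  · exact hneg.le.trans (Pool.Agent.Y390.QR.LIP.Ev_nonneg m)
  refine le_csInf (Pool.Agent.Y592.QE.nonempty_set hF' m) ?_
  rintro lam'' ⟨h0, V, hV, hVa⟩
  obtain ⟨z, hz, hz0, hzl⟩ := Pool.Agent.Y592.QE.exists_ker hV (N := m)
    (fun i => b.flip (e' i)) (Nat.lt_succ_self m)
  have hbpos := Pool.Agent.Y592.QE.b_pos hF' hz0 (hVa z hz)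
  have hzl' : ∀ i : ℕ, i < m → b z (e' i) = 0 := fun i hi => hzl ⟨i, hi⟩
  have hA := low hF hE' hgp.le hgap hzl'
  rw [hem] at hA
  set c := b z w with hcdef
  set Z := b z z with hZ
  set z' : H := z - c • w with hz'
  have hy' : b z' z' = Z - c ^ 2 := by
    rw [hz']
    simp only [map_sub, map_smul, ContinuousLinearMap.sub_apply, ContinuousLinearMap.smul_apply,
      smul_eq_mul, hF.sb w z, hw]
    ring
  set y := Z - c ^ 2 with hydef
  have hy0 : 0 ≤ y := by rw [← hy']; exact hF.nb z'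
  have hkz : k z z = κ * c ^ 2 + 2 * c * k w z' + k z' z' := by
    have h5 : z = c • w + z' := by rw [hz']; abel
    conv_lhs => rw [h5]
    simp only [map_add, map_smul, ContinuousLinearMap.add_apply, ContinuousLinearMap.smul_apply,
      smul_eq_mul, sk z' w]
    ring
  have hcross : |2 * c * k w z'| ≤ K * (s * c ^ 2 + y / s) := by
    have h5 := cs sk hF.sb hk w z'
    rw [hw, hy', one_mul] at h5
    have h6 : (2 * c * k w z') ^ 2 ≤ (K * (s * c ^ 2 + y / s)) ^ 2 := by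
      have h7 : (2 * c * k w z') ^ 2 ≤ 4 * c ^ 2 * (K ^ 2 * y) := by
        calc (2 * c * k w z') ^ 2 = 4 * c ^ 2 * (k w z') ^ 2 := by ring
          _ ≤ 4 * c ^ 2 * (K ^ 2 * y) := mul_le_mul_of_nonneg_left h5 (by positivity)
      have h8 : (K * (s * c ^ 2 + y / s)) ^ 2 - 4 * c ^ 2 * (K ^ 2 * y) =
          (K * (s * c ^ 2 - y / s)) ^ 2 := by
        field_simp
        ring
      have h9 := sq_nonneg (K * (s * c ^ 2 - y / s))
      linarith
    exact abs_le_of_sq_le_sq h6 (by positivity)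
  have hkz' : |k z' z'| ≤ K * y := by
    have := hk z'
    rwa [hy'] at this
  have ht := abs_nonneg τ
  have hup : b' z z ≤ (1 + τ * κ + |τ| * (K * s) + Q * τ ^ 2) * c ^ 2 +
      (1 + |τ| * (K * (1 + 1 / s)) + Q * τ ^ 2) * y := by
    refine (hb' z).trans ?_
    rw [hkz]
    have h5 : τ * (2 * c * k w z' + k z' z') ≤ |τ| * (K * (s * c ^ 2 + y / s) + K * y) := by
      refine (le_abs_self _).trans ?_
      rw [abs_mul]
      refine mul_le_mul_of_nonneg_left ?_ ht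
      exact (abs_add_le _ _).trans (add_le_add hcross hkz')
    have h6 : (1 + τ * κ + |τ| * (K * s) + Q * τ ^ 2) * c ^ 2 +
        (1 + |τ| * (K * (1 + 1 / s)) + Q * τ ^ 2) * y =
        (c ^ 2 + y) + τ * (κ * c ^ 2) + |τ| * (K * (s * c ^ 2 + y / s) + K * y) +
          Q * τ ^ 2 * (c ^ 2 + y) := by
      field_simp
      ring
    have h7 : Z = c ^ 2 + y := by rw [hydef]; ring
    rw [h6, ← hZ, h7]
    linarith
  have hc2 : 0 ≤ c ^ 2 := sq_nonneg c
  have hclaim : lam' * b' z z ≤ a z z := by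
    calc lam' * b' z z ≤ lam' * ((1 + τ * κ + |τ| * (K * s) + Q * τ ^ 2) * c ^ 2 +
          (1 + |τ| * (K * (1 + 1 / s)) + Q * τ ^ 2) * y) := mul_le_mul_of_nonneg_left hup hpos
      _ = (lam' * (1 + τ * κ + |τ| * (K * s) + Q * τ ^ 2)) * c ^ 2 +
          (lam' * (1 + |τ| * (K * (1 + 1 / s)) + Q * τ ^ 2)) * y := by ring
      _ ≤ lam * c ^ 2 + (lam + g) * y :=
          add_le_add (mul_le_mul_of_nonneg_right hc hc2) (mul_le_mul_of_nonneg_right hy hy0)
      _ = (lam + g) * Z - g * c ^ 2 := by rw [hydef]; ring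
      _ ≤ a z z := hA
  have h5 := hclaim.trans (hVa z hz)
  exact le_of_mul_le_mul_right h5 hbpos

end forms

end Pool.Agent.K4H66.QU
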