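import Pool.Agent.K4H66.QU.Stab
import Pool.Agent.K4H66.QU.Top

/-!
# The forms of a conformal class of surfaces: estimates (helper66)
-/

set_option autoImplicit false

open Set Filter Topology MeasureTheory
open scoped Real

noncomputable section

namespace Pool.Agent.K4H66.QU

open Pool.Agent.Y262.QE Pool.Agent.Y264.QR

variable {M : Type} [MetricSpace M] [CompactSpace M] [MeasurableSpace M] [BorelSpace M]
  {μ : Measure M} [IsFiniteMeasure μ] {H : Type} [NormedAddCommGroup H] [InnerProductSpace ℝ H]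
  {i : H →L[ℝ] Lp ℝ 2 μ} {a : H →L[ℝ] H →L[ℝ] ℝ} {b : C(M, ℝ) → H →L[ℝ] H →L[ℝ] ℝ}

/-- the forms of the metrics `exp φ · g` of a closed surface -/
structure Ctx (μ : Measure M) [IsFiniteMeasure μ] (i : H →L[ℝ] Lp ℝ 2 μ) (a : H →L[ℝ] H →L[ℝ] ℝ)
    (b : C(M, ℝ) → H →L[ℝ] H →L[ℝ] ℝ) : Prop where
  sf : Sf μ i a
  isb : IsB μ i b
  wl : Wl μ a b
  fm : ∀ φ, Fm a (b φ)
  pos : ∀ φ : C(M, ℝ), 0 < ∫ x, Real.exp (φ x) ∂μ
  cmp : ∀ (φ ψ : C(M, ℝ)) (v : H), b φ v v ≤ Real.exp ‖φ - ψ‖ * b ψ v v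
  ker : ∀ h : C(M, ℝ), ∃ k : C(M, ℝ) → H →L[ℝ] H →L[ℝ] ℝ, (∀ φ u v, k φ u v = k φ v u) ∧
    (∀ φ v, k φ v v = kap μ i h φ v ∧ |k φ v v| ≤ ‖h‖ * b φ v v) ∧
    ∀ φ v (τ : ℝ), b φ v v + τ * k φ v v ≤ b (φ + τ • h) v v
  ex : ∀ φ, ∃ (e : ℕ → H) (E : ℕ → ℝ), Eg a (b φ) e E

theorem Ctx.mk' (hS : Sf μ i a) (hB : IsB μ i b) (hW : Wl μ a b)
    (hex : ∀ φ, Fm a (b φ) → ∃ (e : ℕ → H) (E : ℕ → ℝ), Eg a (b φ) e E) : Ctx μ i a b := by
  obtain ⟨b0, hB0, hF, hA, hexp, hk⟩ := tFm M μ H i a hS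
  have hbb : b0 = b := by
    funext ψ
    ext u v
    rw [hB0, hB]
  subst hbb
  exact ⟨hS, hB, hW, hF, hA, hexp, hk, fun φ => hex φ (hF φ)⟩

/-- `v` is a normalized eigenvector for the `j`-th eigenvalue of the metric `exp φ · g` -/
def IsV (a : H →L[ℝ] H →L[ℝ] ℝ) (b : C(M, ℝ) → H →L[ℝ] H →L[ℝ] ℝ) (φ : C(M, ℝ)) (j : ℕ) (v : H) :
    Prop :=
  b φ v v = 1 ∧ ∀ z, a v z = Ev a (b φ) j * b φ v z

theorem Ctx.kap_abs (h : Ctx μ i a b) (f φ : C(M, ℝ)) (v : H) :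
    |kap μ i f φ v| ≤ ‖f‖ * b φ v v := by
  obtain ⟨k, -, hk, -⟩ := h.ker f
  rw [← (hk φ v).1]
  exact (hk φ v).2

theorem Ctx.mm (h : Ctx μ i a b) {φ : C(M, ℝ)} {e : ℕ → H} {E : ℕ → ℝ} (hE : Eg a (b φ) e E)
    (j : ℕ) : Ev a (b φ) j = E j :=
  Pool.Agent.Y592.QE.mm H a (b φ) (h.fm φ) e E hE j

theorem Ctx.isV (h : Ctx μ i a b) {φ : C(M, ℝ)} {e : ℕ → H} {E : ℕ → ℝ} (hE : Eg a (b φ) e E)
    (j : ℕ) : IsV a b φ j (e j) := by
  refine ⟨by rw [hE.orth, if_pos rfl], fun z => ?_⟩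
  rw [h.mm hE, hE.eig]

/-- every normalized eigenvector is part of an eigenbasis -/
theorem Ctx.rot (h : Ctx μ i a b) {φ : C(M, ℝ)} {j : ℕ} {v : H} (hv : IsV a b φ j v) :
    ∃ (e : ℕ → H) (E : ℕ → ℝ), Eg a (b φ) e E ∧ e j = v := by
  obtain ⟨e, E, hE⟩ := h.ex φ
  obtain ⟨e', hE', he'⟩ := QU.rot (h.fm φ) hE j hv.1 (fun z => by rw [hv.2, h.mm hE])
  exact ⟨e', E, hE', he'⟩

theorem Ctx.lip (h : Ctx μ i a b) (φ ψ : C(M, ℝ)) (j : ℕ) :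
    Ev a (b φ) j ≤ Real.exp ‖φ - ψ‖ * Ev a (b ψ) j :=
  (tLip M μ H a b h.fm h.cmp).2.2.1 φ ψ j

theorem Ctx.Ev_cont (h : Ctx μ i a b) (j : ℕ) : Continuous fun φ => Ev a (b φ) j :=
  (tLip M μ H a b h.fm h.cmp).2.2.2.1 j

theorem Ctx.Ev_mono (h : Ctx μ i a b) (φ : C(M, ℝ)) {j l : ℕ} (hjl : j ≤ l) :
    Ev a (b φ) j ≤ Ev a (b φ) l :=
  (tLip M μ H a b h.fm h.cmp).2.1 φ j l hjl

/-- all large eigenvalues are positive -/
theorem Ctx.J0 (h : Ctx μ i a b) : ∃ J : ℕ, ∀ j, J ≤ j → ∀ ψ, 0 < Ev a (b ψ) j := by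
  have h1 := h.wl 0
  have h2 : (0 : ℝ) < 4 * π / ∫ x, Real.exp ((0 : C(M, ℝ)) x) ∂μ :=
    div_pos (by positivity) (h.pos 0)
  obtain ⟨J, hJ⟩ := eventually_atTop.1 (h1.eventually (lt_mem_nhds h2))
  refine ⟨J, fun j hj => ?_⟩
  rcases (tLip M μ H a b h.fm h.cmp).2.2.2.2 j with h3 | h3
  · exfalso
    have h4 := hJ j hj
    rw [h3 0, zero_div] at h4
    exact lt_irrefl _ h4
  · exact h3

theorem absx (φ : C(M, ℝ)) (x : M) : |φ x| ≤ ‖φ‖ := by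
  rw [← Real.norm_eq_abs]
  exact φ.norm_coe_le_norm x

theorem expm (φ : C(M, ℝ)) : Measurable fun x => Real.exp (φ x) :=
  (Real.continuous_exp.comp φ.continuous).measurable

theorem expC (φ : C(M, ℝ)) (x : M) : |Real.exp (φ x)| ≤ Real.exp ‖φ‖ := by
  rw [abs_of_pos (Real.exp_pos _)]
  exact Real.exp_le_exp.2 ((le_abs_self _).trans (absx φ x))

/-- the weight `w` gives the upper bound of an integral -/
theorem wle {w w' : M → ℝ} (hw : Continuous w) (hw' : Continuous w') (hle : ∀ x, w x ≤ w' x)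
    (f : Lp ℝ 2 μ) : ∫ x, w x * (f x * f x) ∂μ ≤ ∫ x, w' x * (f x * f x) ∂μ := by
  have h1 : ∀ w : M → ℝ, Continuous w → ∃ C : ℝ, ∀ x, |w x| ≤ C := by
    intro w hw
    exact ⟨‖(⟨w, hw⟩ : C(M, ℝ))‖, fun x => absx ⟨w, hw⟩ x⟩
  obtain ⟨C, hC⟩ := h1 w hw
  obtain ⟨C', hC'⟩ := h1 w' hw'
  exact Pool.Agent.Y363.QE.mono_w hw.measurable hC hw'.measurable hC' hle f

theorem Ctx.kap_int (f φ : C(M, ℝ)) (v : H) :
    kap μ i f φ v = ∫ x, (f x * Real.exp (φ x)) * (i v x * i v x) ∂μ := by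
  unfold kap
  refine integral_congr_ae (Eventually.of_forall fun x => ?_)
  simp only
  ring

theorem Ctx.b_int (h : Ctx μ i a b) (φ : C(M, ℝ)) (v : H) :
    b φ v v = ∫ x, Real.exp (φ x) * (i v x * i v x) ∂μ := h.isb φ v v

theorem exp_dif (φ ψ : C(M, ℝ)) (x : M) :
    |Real.exp (φ x) - Real.exp (ψ x)| ≤ (Real.exp ‖φ - ψ‖ - 1) * Real.exp (ψ x) := by
  have e1 : Real.exp (φ x) - Real.exp (ψ x) = (Real.exp (φ x - ψ x) - 1) * Real.exp (ψ x) := by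
    rw [sub_mul, ← Real.exp_add, sub_add_cancel, one_mul]
  rw [e1, abs_mul, Real.abs_exp]
  refine mul_le_mul_of_nonneg_right ?_ (Real.exp_pos _).le
  have h1 : |φ x - ψ x| ≤ ‖φ - ψ‖ := absx (φ - ψ) x
  have h2 := abs_le.1 h1
  rw [abs_le]
  constructor
  · have h3 : Real.exp (-‖φ - ψ‖) ≤ Real.exp (φ x - ψ x) := Real.exp_le_exp.2 h2.1
    have h4 : 2 - Real.exp ‖φ - ψ‖ ≤ Real.exp (-‖φ - ψ‖) := by
      rw [Real.exp_neg]
      have h5 := Real.exp_pos ‖φ - ψ‖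
      have h6 : (Real.exp ‖φ - ψ‖ - 1) ^ 2 ≥ 0 := sq_nonneg _
      rw [← one_div, le_div_iff₀ h5]
      nlinarith
    linarith
  · have h3 : Real.exp (φ x - ψ x) ≤ Real.exp ‖φ - ψ‖ := Real.exp_le_exp.2 h2.2
    linarith

theorem Ctx.kap_dif (h : Ctx μ i a b) (f φ ψ : C(M, ℝ)) (v : H) :
    |kap μ i f φ v - kap μ i f ψ v| ≤ ‖f‖ * (Real.exp ‖φ - ψ‖ - 1) * b ψ v v := by
  have hcf := f.continuous
  have hcφ := φ.continuous
  have hcψ := ψ.continuous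
  have hI : ∀ φ : C(M, ℝ), Integrable (fun x => (f x * Real.exp (φ x)) * (i v x * i v x)) μ := by
    intro φ
    have hc : Continuous fun x => f x * Real.exp (φ x) := by fun_prop
    exact Pool.Agent.Y363.QE.int_w hc.measurable
      (fun x => absx (⟨fun x => f x * Real.exp (φ x), hc⟩ : C(M, ℝ)) x) (i v)
  have e1 : kap μ i f φ v - kap μ i f ψ v =
      ∫ x, (f x * (Real.exp (φ x) - Real.exp (ψ x))) * (i v x * i v x) ∂μ := by
    rw [Ctx.kap_int, Ctx.kap_int, ← integral_sub (hI φ) (hI ψ)]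
    refine integral_congr_ae (Eventually.of_forall fun x => ?_)
    simp only
    ring
  have e2 : ‖f‖ * (Real.exp ‖φ - ψ‖ - 1) * b ψ v v =
      ∫ x, (‖f‖ * (Real.exp ‖φ - ψ‖ - 1) * Real.exp (ψ x)) * (i v x * i v x) ∂μ := by
    rw [h.b_int, ← integral_const_mul]
    refine integral_congr_ae (Eventually.of_forall fun x => ?_)
    simp only
    ring
  have e3 : -(‖f‖ * (Real.exp ‖φ - ψ‖ - 1) * b ψ v v) =
      ∫ x, (-(‖f‖ * (Real.exp ‖φ - ψ‖ - 1) * Real.exp (ψ x))) * (i v x * i v x) ∂μ := by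
    rw [e2, ← integral_neg]
    refine integral_congr_ae (Eventually.of_forall fun x => ?_)
    simp only
    ring
  have hb : ∀ x, |f x * (Real.exp (φ x) - Real.exp (ψ x))| ≤
      ‖f‖ * (Real.exp ‖φ - ψ‖ - 1) * Real.exp (ψ x) := by
    intro x
    rw [abs_mul, mul_assoc]
    exact mul_le_mul (absx f x) (exp_dif φ ψ x) (abs_nonneg _) (norm_nonneg _)
  rw [abs_le]
  constructor
  · rw [e1, e3]
    exact wle (by fun_prop) (by fun_prop) (fun x => (abs_le.1 (hb x)).1) _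
  · rw [e1, e2]
    exact wle (by fun_prop) (by fun_prop) (fun x => (abs_le.1 (hb x)).2) _

theorem Ctx.b_dif (h : Ctx μ i a b) (φ ψ : C(M, ℝ)) (v : H) :
    |b φ v v - b ψ v v| ≤ (Real.exp ‖φ - ψ‖ - 1) * b ψ v v := by
  have h1 := h.cmp φ ψ v
  have h2 := h.cmp ψ φ v
  rw [norm_sub_rev] at h2
  have h3 := Real.exp_pos ‖φ - ψ‖
  have h4 := (h.fm ψ).nb v
  have h5 : 1 ≤ Real.exp ‖φ - ψ‖ := Real.one_le_exp (norm_nonneg _)
  rw [abs_le]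
  constructor
  · -- b ψ ≤ e b φ, so b φ ≥ b ψ / e ≥ (2 - e) b ψ
    have h6 : (2 - Real.exp ‖φ - ψ‖) * b ψ v v ≤ b φ v v := by
      have h7 : Real.exp ‖φ - ψ‖ * ((2 - Real.exp ‖φ - ψ‖) * b ψ v v) ≤ b ψ v v := by
        have h8 : Real.exp ‖φ - ψ‖ * (2 - Real.exp ‖φ - ψ‖) ≤ 1 := by
          nlinarith [sq_nonneg (Real.exp ‖φ - ψ‖ - 1)]
        calc _ = (Real.exp ‖φ - ψ‖ * (2 - Real.exp ‖φ - ψ‖)) * b ψ v v := by ring
          _ ≤ 1 * b ψ v v := mul_le_mul_of_nonneg_right h8 h4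
          _ = b ψ v v := one_mul _
      have h9 := h7.trans h2
      exact le_of_mul_le_mul_left h9 h3
    linarith
  · linarith

theorem Ctx.Ev_dif (h : Ctx μ i a b) (φ ψ : C(M, ℝ)) (j : ℕ) :
    |Ev a (b φ) j - Ev a (b ψ) j| ≤ (Real.exp ‖φ - ψ‖ - 1) * Ev a (b ψ) j := by
  have h1 := h.lip φ ψ j
  have h2 := h.lip ψ φ j
  rw [norm_sub_rev] at h2
  have h3 := Real.exp_pos ‖φ - ψ‖
  have h4 : 0 ≤ Ev a (b ψ) j := Pool.Agent.Y390.QR.LIP.Ev_nonneg j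
  rw [abs_le]
  constructor
  · have h6 : (2 - Real.exp ‖φ - ψ‖) * Ev a (b ψ) j ≤ Ev a (b φ) j := by
      have h7 : Real.exp ‖φ - ψ‖ * ((2 - Real.exp ‖φ - ψ‖) * Ev a (b ψ) j) ≤ Ev a (b ψ) j := by
        have h8 : Real.exp ‖φ - ψ‖ * (2 - Real.exp ‖φ - ψ‖) ≤ 1 := by
          nlinarith [sq_nonneg (Real.exp ‖φ - ψ‖ - 1)]
        calc _ = (Real.exp ‖φ - ψ‖ * (2 - Real.exp ‖φ - ψ‖)) * Ev a (b ψ) j := by ring
          _ ≤ 1 * Ev a (b ψ) j := mul_le_mul_of_nonneg_right h8 h4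
          _ = Ev a (b ψ) j := one_mul _
      have h9 := h7.trans h2
      exact le_of_mul_le_mul_left h9 h3
    linarith
  · linarith

/-- the form of the metric `exp (φ + τ h) g` up to the second order -/
theorem Ctx.up (h : Ctx μ i a b) (φ f : C(M, ℝ)) {τ : ℝ} (hτ : |τ| * ‖f‖ ≤ 1) (v : H) :
    b (φ + τ • f) v v ≤ b φ v v + τ * kap μ i f φ v + ‖f‖ ^ 2 * τ ^ 2 * b φ v v := by
  have hcf := f.continuous
  have hcφ := φ.continuous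
  have hI : ∀ w : M → ℝ, Continuous w → Integrable (fun x => w x * (i v x * i v x)) μ := by
    intro w hc
    exact Pool.Agent.Y363.QE.int_w hc.measurable (fun x => absx (⟨w, hc⟩ : C(M, ℝ)) x) (i v)
  have e1 : b φ v v + τ * kap μ i f φ v + ‖f‖ ^ 2 * τ ^ 2 * b φ v v =
      ∫ x, (Real.exp (φ x) + τ * (f x * Real.exp (φ x)) + ‖f‖ ^ 2 * τ ^ 2 * Real.exp (φ x)) *
        (i v x * i v x) ∂μ := by
    have i1 := hI (fun x => Real.exp (φ x)) (by fun_prop)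
    have i2 := (hI (fun x => f x * Real.exp (φ x)) (by fun_prop)).const_mul τ
    have i3 := (hI (fun x => Real.exp (φ x)) (by fun_prop)).const_mul (‖f‖ ^ 2 * τ ^ 2)
    have i4 := integral_add i1 i2
    have i5 := integral_add (i1.add i2) i3
    simp only [Pi.add_apply] at i4 i5
    rw [h.b_int, Ctx.kap_int, ← integral_const_mul, ← integral_const_mul, ← i4, ← i5]
    refine integral_congr_ae (Eventually.of_forall fun x => ?_)
    simp only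
    ring
  rw [e1, h.b_int]
  refine wle ?_ (by fun_prop) (fun x => ?_) _
  · exact Real.continuous_exp.comp (φ + τ • f).continuous
  · have h0 : (φ + τ • f) x = φ x + τ * f x := rfl
    rw [h0, Real.exp_add]
    have h1 : |τ * f x| ≤ 1 := by
      rw [abs_mul]
      exact (mul_le_mul_of_nonneg_left (absx f x) (abs_nonneg _)).trans hτ
    have h2 := (abs_le.1 (Real.abs_exp_sub_one_sub_id_le h1)).2
    have h3 : (τ * f x) ^ 2 ≤ ‖f‖ ^ 2 * τ ^ 2 := by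
      have h4 : |f x| ^ 2 ≤ ‖f‖ ^ 2 := pow_le_pow_left₀ (abs_nonneg _) (absx f x) 2
      rw [sq_abs] at h4
      calc (τ * f x) ^ 2 = (f x) ^ 2 * τ ^ 2 := by ring
        _ ≤ ‖f‖ ^ 2 * τ ^ 2 := mul_le_mul_of_nonneg_right h4 (sq_nonneg _)
    have h5 : Real.exp (τ * f x) ≤ 1 + τ * f x + ‖f‖ ^ 2 * τ ^ 2 := by linarith
    have h6 := mul_le_mul_of_nonneg_left h5 (Real.exp_pos (φ x)).le
    calc Real.exp (φ x) * Real.exp (τ * f x) ≤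
          Real.exp (φ x) * (1 + τ * f x + ‖f‖ ^ 2 * τ ^ 2) := h6
      _ = _ := by ring

theorem exp_small {t : ℝ} (h0 : 0 ≤ t) (h1 : t ≤ 1) : Real.exp t - 1 ≤ 2 * t := by
  have h2 : |t| ≤ 1 := by rwa [abs_of_nonneg h0]
  have h3 := Real.abs_exp_sub_one_le h2
  rw [abs_of_nonneg h0] at h3
  exact (le_abs_self _).trans h3

/-- the eigenvectors of a nearby metric are near eigenvectors -/
theorem Ctx.near (h : Ctx μ i a b) (φ₀ : C(M, ℝ)) (j : ℕ) : ∃ L δ₀ : ℝ, 0 < L ∧ 0 < δ₀ ∧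
    ∀ φ : C(M, ℝ), ‖φ - φ₀‖ ≤ δ₀ → ∀ v, IsV a b φ j v → ∃ w, IsV a b φ₀ j w ∧
      ∀ f : C(M, ℝ), |kap μ i f φ v - kap μ i f φ₀ w| ≤ ‖f‖ * (L * ‖φ - φ₀‖) := by
  obtain ⟨e, E, hE⟩ := h.ex φ₀
  obtain ⟨L, η₀, hL, hη₀, hst⟩ := stab (h.fm φ₀) hE j
  refine ⟨2 * L + 4, min (1 / 4) (η₀ / 2), by positivity, ?_, ?_⟩
  · exact lt_min (by norm_num) (by positivity)
  intro φ hφ v hv
  set t := ‖φ - φ₀‖ with ht
  have ht0 : 0 ≤ t := norm_nonneg _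
  have ht1 : t ≤ 1 / 4 := hφ.trans (min_le_left _ _)
  have ht2 : t ≤ η₀ / 2 := hφ.trans (min_le_right _ _)
  set η := Real.exp t - 1 with hη
  have hη1 : η ≤ 2 * t := exp_small ht0 (by linarith)
  have hη0 : 0 ≤ η := by
    have := Real.add_one_le_exp t
    rw [hη]
    linarith
  obtain ⟨w, hw1, hw2, hw3⟩ := hst (b φ) (h.fm φ).sb η hη0 (by linarith) (h.b_dif φ φ₀)
    (Ev a (b φ) j) v (by rw [← h.mm hE]; exact h.Ev_dif φ φ₀ j) hv.2 hv.1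
  refine ⟨w, ⟨hw1, fun z => by rw [h.mm hE, hw2]⟩, fun f => ?_⟩
  obtain ⟨k, sk, hk, -⟩ := h.ker f
  have h1 := hw3 (k φ₀) ‖f‖ (sk φ₀) (fun u => (hk φ₀ u).2)
  rw [(hk φ₀ v).1, (hk φ₀ w).1] at h1
  have h2 := h.kap_dif f φ φ₀ v
  have h3 : b φ₀ v v ≤ 2 := by
    have h4 := (abs_le.1 (h.b_dif φ φ₀ v)).1
    rw [hv.1] at h4
    have h5 : 0 ≤ b φ₀ v v := (h.fm φ₀).nb v
    have h6 : (Real.exp ‖φ - φ₀‖ - 1) * b φ₀ v v ≤ 1 / 2 * b φ₀ v v :=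
      mul_le_mul_of_nonneg_right (by rw [← ht, ← hη]; linarith) h5
    linarith
  have h4 : ‖f‖ * (Real.exp ‖φ - φ₀‖ - 1) * b φ₀ v v ≤ ‖f‖ * (4 * t) := by
    rw [mul_assoc]
    refine mul_le_mul_of_nonneg_left ?_ (norm_nonneg _)
    calc (Real.exp ‖φ - φ₀‖ - 1) * b φ₀ v v ≤ (2 * t) * 2 := by
          apply mul_le_mul hη1 h3 ((h.fm φ₀).nb v) (by positivity)
      _ = 4 * t := by ring
  calc |kap μ i f φ v - kap μ i f φ₀ w|
      ≤ |kap μ i f φ v - kap μ i f φ₀ v| + |kap μ i f φ₀ v - kap μ i f φ₀ w| := abs_sub_le _ _ _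
    _ ≤ ‖f‖ * (4 * t) + ‖f‖ * (L * η) := add_le_add (h2.trans h4) h1
    _ ≤ ‖f‖ * (4 * t) + ‖f‖ * (L * (2 * t)) := by
        have := mul_le_mul_of_nonneg_left (mul_le_mul_of_nonneg_left hη1 hL.le) (norm_nonneg f)
        linarith
    _ = ‖f‖ * ((2 * L + 4) * t) := by ring

theorem avg_cont (f : C(M, ℝ)) : Continuous fun φ : C(M, ℝ) => avg μ f φ := by
  let _ : MeasurableSpace C(M, ℝ) := borel _
  have _ : BorelSpace C(M, ℝ) := ⟨rfl⟩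
  exact (Pool.Agent.Y689.QR.cm M μ).2.1 f

theorem avg_abs (f φ : C(M, ℝ)) : |avg μ f φ| ≤ ‖f‖ := by
  let _ : MeasurableSpace C(M, ℝ) := borel _
  have _ : BorelSpace C(M, ℝ) := ⟨rfl⟩
  exact (Pool.Agent.Y689.QR.cm M μ).2.2.1 f φ

theorem Ctx.avgint (h : Ctx μ i a b) (φ f : C(M, ℝ)) (α β : ℝ) :
    ∫ t in α..β, avg μ f (φ + t • f) =
      Real.log (∫ x, Real.exp ((φ + β • f) x) ∂μ) -
        Real.log (∫ x, Real.exp ((φ + α • f) x) ∂μ) :=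
  Pool.Agent.Y155.QR.avg_int μ h.pos φ f α β

/-- Weyl's law for two metrics -/
theorem Ctx.wllog (h : Ctx μ i a b) (φ ψ : C(M, ℝ)) :
    Tendsto (fun j : ℕ => Real.log (Ev a (b φ) j) - Real.log (Ev a (b ψ) j)) atTop
      (𝓝 (Real.log (∫ x, Real.exp (ψ x) ∂μ) - Real.log (∫ x, Real.exp (φ x) ∂μ))) := by
  obtain ⟨J, hJ⟩ := h.J0
  have hlog : ∀ φ : C(M, ℝ), Tendsto
      (fun j : ℕ => Real.log (Ev a (b φ) j / ((j : ℝ) + 1))) atTop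
      (𝓝 (Real.log (4 * π / ∫ x, Real.exp (φ x) ∂μ))) := fun φ =>
    (h.wl φ).log (div_pos (by positivity) (h.pos _)).ne'
  have h3 := (hlog φ).sub (hlog ψ)
  have e1 : Real.log (4 * π / ∫ x, Real.exp (φ x) ∂μ) -
      Real.log (4 * π / ∫ x, Real.exp (ψ x) ∂μ) =
      Real.log (∫ x, Real.exp (ψ x) ∂μ) - Real.log (∫ x, Real.exp (φ x) ∂μ) := by
    rw [Real.log_div (by positivity) (h.pos _).ne', Real.log_div (by positivity) (h.pos _).ne']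
    ring
  rw [e1] at h3
  refine h3.congr' ?_
  filter_upwards [eventually_ge_atTop J] with j hj
  have hj0 : (j : ℝ) + 1 ≠ 0 := by positivity
  rw [Real.log_div (hJ j hj _).ne' hj0, Real.log_div (hJ j hj _).ne' hj0]
  ring

/-- the logarithms of the eigenvalues as integrals of the masses -/
theorem Ctx.ftc (h : Ctx μ i a b) {j : ℕ} (hj : ∀ ψ, 0 < Ev a (b ψ) j) (φ f : C(M, ℝ))
    {e : ℝ → ℕ → H} {E : ℝ → ℕ → ℝ} (hE : ∀ t, Eg a (b (φ + t • f)) (e t) (E t)) :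
    (∀ᵐ t : ℝ, |kap μ i f (φ + t • f) (e t j)| ≤ ‖f‖) ∧
    AEMeasurable (fun t : ℝ => kap μ i f (φ + t • f) (e t j)) volume ∧
    ∀ α β : ℝ, α ≤ β → ∫ t in α..β, kap μ i f (φ + t • f) (e t j) =
      Real.log (Ev a (b (φ + α • f)) j) - Real.log (Ev a (b (φ + β • f)) j) := by
  have h1 := (tOneP M μ H i a b h.sf h.isb h.wl φ f e E hE).1
  refine Pool.Agent.Y147.QR.stFTC (fun t => Ev a (b (φ + t • f)) j)
    (fun t => kap μ i f (φ + t • f) (e t j)) ‖f‖ (fun t => hj _) ?_ (h1.mono fun t ht => ht j)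
  intro s t
  have h2 := h.lip (φ + s • f) (φ + t • f) j
  have e1 : ‖(φ + s • f) - (φ + t • f)‖ = ‖f‖ * |s - t| := by
    rw [add_sub_add_left_eq_sub, ← sub_smul, norm_smul, Real.norm_eq_abs, mul_comm]
  rw [e1] at h2
  exact h2

end Pool.Agent.K4H66.QU
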