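import Pool.Agent.K4H66.QU.Core

/-!
# Sets of metrics: density, Baire category (helper66)
-/

set_option autoImplicit false

open Set Filter Topology MeasureTheory
open scoped Real

noncomputable section

namespace Pool.Agent.K4H66.QU

open Pool.Agent.Y262.QE Pool.Agent.Y264.QR

variable {M : Type} [MetricSpace M] [CompactSpace M] [MeasurableSpace M] [BorelSpace M]
  {μ : Measure M} [IsFiniteMeasure μ] {H : Type} [NormedAddCommGroup H] [InnerProductSpace ℝ H]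
  {i : H →L[ℝ] Lp ℝ 2 μ} {a : H →L[ℝ] H →L[ℝ] ℝ} {b : C(M, ℝ) → H →L[ℝ] H →L[ℝ] ℝ}

/-- some eigenbasis of the metric `exp φ · g` satisfies the bound -/
def SomeE (μ : Measure M) (i : H →L[ℝ] Lp ℝ 2 μ) (a : H →L[ℝ] H →L[ℝ] ℝ)
    (b : C(M, ℝ) → H →L[ℝ] H →L[ℝ] ℝ) (f : C(M, ℝ)) (ε : ℝ) (J : ℕ) (φ : C(M, ℝ)) : Prop :=
  ∃ (e : ℕ → H) (E : ℕ → ℝ), Eg a (b φ) e E ∧ ∀ j, J ≤ j → |kap μ i f φ (e j) - avg μ f φ| ≤ ε

/-- all eigenvectors of the metric `exp φ · g` satisfy the bound -/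
def AllE (μ : Measure M) (i : H →L[ℝ] Lp ℝ 2 μ) (a : H →L[ℝ] H →L[ℝ] ℝ)
    (b : C(M, ℝ) → H →L[ℝ] H →L[ℝ] ℝ) (f : C(M, ℝ)) (ε : ℝ) (J : ℕ) (φ : C(M, ℝ)) : Prop :=
  ∀ j, J ≤ j → ∀ v, IsV a b φ j v → |kap μ i f φ v - avg μ f φ| ≤ ε

theorem Ctx.some_of_all (h : Ctx μ i a b) {f : C(M, ℝ)} {ε : ℝ} {J : ℕ} {φ : C(M, ℝ)}
    (hA : AllE μ i a b f ε J φ) : SomeE μ i a b f ε J φ := by
  obtain ⟨e, E, hE⟩ := h.ex φ
  exact ⟨e, E, hE, fun j hj => hA j hj (e j) (h.isV hE j)⟩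

theorem Ctx.all_of_near (h : Ctx μ i a b) {f g : C(M, ℝ)} {ε η : ℝ} {J : ℕ} {φ : C(M, ℝ)}
    (hA : AllE μ i a b g ε J φ) (hfg : ‖f - g‖ ≤ η) : AllE μ i a b f (ε + 2 * η) J φ := by
  intro j hj v hv
  have h1 := hA j hj v hv
  have h2 := h.kap_sub_le f g φ hv
  have h3 := avg_sub_le (μ := μ) g f φ
  rw [norm_sub_rev] at h3
  have e1 : kap μ i f φ v - avg μ f φ = (kap μ i f φ v - kap μ i g φ v) +
    (kap μ i g φ v - avg μ g φ) + (avg μ g φ - avg μ f φ) := by ring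
  rw [e1]
  have h4 := abs_add_le (kap μ i f φ v - kap μ i g φ v + (kap μ i g φ v - avg μ g φ))
    (avg μ g φ - avg μ f φ)
  have h5 := abs_add_le (kap μ i f φ v - kap μ i g φ v) (kap μ i g φ v - avg μ g φ)
  linarith

theorem Ctx.some_of_near (h : Ctx μ i a b) {f g : C(M, ℝ)} {ε η : ℝ} {J : ℕ} {φ : C(M, ℝ)}
    (hA : SomeE μ i a b g ε J φ) (hfg : ‖f - g‖ ≤ η) : SomeE μ i a b f (ε + 2 * η) J φ := by
  obtain ⟨e, E, hE, hb⟩ := hA
  refine ⟨e, E, hE, fun j hj => ?_⟩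
  have h1 := hb j hj
  have h2 := h.kap_sub_le f g φ (h.isV hE j)
  have h3 := avg_sub_le (μ := μ) g f φ
  rw [norm_sub_rev] at h3
  have e1 : kap μ i f φ (e j) - avg μ f φ = (kap μ i f φ (e j) - kap μ i g φ (e j)) +
    (kap μ i g φ (e j) - avg μ g φ) + (avg μ g φ - avg μ f φ) := by ring
  rw [e1]
  have h4 := abs_add_le (kap μ i f φ (e j) - kap μ i g φ (e j) + (kap μ i g φ (e j) - avg μ g φ))
    (avg μ g φ - avg μ f φ)
  have h5 := abs_add_le (kap μ i f φ (e j) - kap μ i g φ (e j)) (kap μ i g φ (e j) - avg μ g φ)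
  linarith

section X

variable {X : Type*} [AddCommGroup X] [Module ℝ X] [TopologicalSpace X] [ContinuousAdd X]
  [ContinuousSMul ℝ X] {T : X →L[ℝ] C(M, ℝ)}

theorem seg (x y : X) {O : Set X} (hO : IsOpen O) (hx : x ∈ O) :
    ∃ δ : ℝ, 0 < δ ∧ ∀ τ : ℝ, |τ| < δ → x + τ • y ∈ O := by
  have hc : Continuous fun τ : ℝ => x + τ • y := by fun_prop
  have h1 : (fun τ : ℝ => x + τ • y) ⁻¹' O ∈ 𝓝 (0 : ℝ) := by
    apply hc.continuousAt.preimage_mem_nhds
    simp only [zero_smul, add_zero]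
    exact hO.mem_nhds hx
  obtain ⟨δ, hδ, h2⟩ := Metric.mem_nhds_iff.1 h1
  refine ⟨δ, hδ, fun τ hτ => h2 ?_⟩
  rw [Metric.mem_ball, Real.dist_eq, sub_zero]
  exact hτ

/-- **Vector level.** If on a dense part of the open set some eigenvectors satisfy the bound, the
eigenvalues satisfy Lipschitz bounds. -/
theorem Ctx.lipO (h : Ctx μ i a b) {J : ℕ} (hJ : ∀ j, J ≤ j → ∀ ψ, 0 < Ev a (b ψ) j)
    {O : Set X} (y : X) {ε : ℝ}
    (hd : O ⊆ closure {x ∈ O | SomeE μ i a b (T y) ε J (T x)}) (x : X) (t : ℝ)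
    (ht : ∀ s ∈ uIcc 0 t, x + s • y ∈ O) (j : ℕ) (hj : J ≤ j) :
    |lE μ a b j (T (x + t • y)) - lE μ a b j (T x)| ≤ ε * |t| := by
  have key : ∀ ε' : ℝ, ε < ε' →
      |lE μ a b j (T (x + t • y)) - lE μ a b j (T x)| ≤ ε' * |t| := by
    intro ε' hε'
    have hS : ∀ s ∈ uIcc 0 t, ∃ v, IsV a b (T x + s • T y) j v ∧
        |kap μ i (T y) (T x + s • T y) v - avg μ (T y) (T x + s • T y)| ≤ ε' := by
      intro s hs
      have h1 := hd (ht s hs)
      have h2 : T (x + s • y) ∈ closure (T '' {x ∈ O | SomeE μ i a b (T y) ε J (T x)}) :=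
        image_closure_subset_closure_image T.continuous ⟨_, h1, rfl⟩
      have h3 := h.clos (T y) j hε' (S := T '' {x ∈ O | SomeE μ i a b (T y) ε J (T x)}) (by
        rintro _ ⟨x', ⟨-, e, E, hE, hb⟩, rfl⟩
        exact ⟨e j, h.isV hE j, hb j hj⟩) h2
      rw [map_add, map_smul] at h3
      exact h3
    rw [map_add, map_smul]
    rcases le_total 0 t with h0 | h0
    · rw [uIcc_of_le h0] at hS
      have h1 := h.bound_of (hJ j hj) (T x) (T y) h0 fun s hs => hS s ⟨hs.1.le, hs.2.le⟩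
      rw [zero_smul, add_zero, sub_zero] at h1
      rwa [abs_of_nonneg h0]
    · rw [uIcc_of_ge h0] at hS
      have h1 := h.bound_of (hJ j hj) (T x) (T y) h0 fun s hs => hS s ⟨hs.1.le, hs.2.le⟩
      rw [zero_smul, add_zero, zero_sub, abs_sub_comm] at h1
      rwa [abs_of_nonpos h0]
  rcases eq_or_ne t 0 with rfl | ht0
  · simp
  · have htp : 0 < |t| := abs_pos.2 ht0
    refine le_of_forall_pos_le_add fun η hη => ?_
    have h1 := key (ε + η / |t|) (by have : 0 < η / |t| := by positivity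
                                     linarith)
    rw [add_mul, div_mul_cancel₀ _ htp.ne'] at h1
    exact h1

/-- Lipschitz bounds for the eigenvalues give the bounds for all eigenfunctions. -/
theorem Ctx.all_of_lip (h : Ctx μ i a b) {J : ℕ} (hJ : ∀ j, J ≤ j → ∀ ψ, 0 < Ev a (b ψ) j)
    {O : Set X} (hO : IsOpen O) (y : X) {ε : ℝ}
    (hL : ∀ x ∈ O, ∀ t : ℝ, (∀ s ∈ uIcc 0 t, x + s • y ∈ O) → ∀ j, J ≤ j →
      |lE μ a b j (T (x + t • y)) - lE μ a b j (T x)| ≤ ε * |t|) (x : X) (hx : x ∈ O) :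
    AllE μ i a b (T y) ε J (T x) := by
  obtain ⟨δ, hδ, hseg⟩ := seg x y hO hx
  refine h.of_bound hJ (T x) (T y) hδ fun j hj τ hτ => ?_
  have h1 := hL x hx τ (fun s hs => hseg s (by
    rcases le_total 0 τ with h0 | h0
    · rw [uIcc_of_le h0] at hs
      rw [abs_of_nonneg hs.1]
      exact lt_of_le_of_lt hs.2 ((le_abs_self τ).trans_lt hτ)
    · rw [uIcc_of_ge h0] at hs
      rw [abs_of_nonpos hs.2]
      exact lt_of_le_of_lt (neg_le_neg hs.1) ((neg_le_abs τ).trans_lt hτ))) j hj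
  rw [map_add, map_smul] at h1
  exact (le_abs_self _).trans h1

/-- **From a dense set and some bases to all metrics and all bases.** -/
theorem Ctx.dense_all (h : Ctx μ i a b) (hT : DenseRange T) {J : ℕ}
    (hJ : ∀ j, J ≤ j → ∀ ψ, 0 < Ev a (b ψ) j) {O : Set X} (hO : IsOpen O) (f : C(M, ℝ)) {ε : ℝ}
    (hd : O ⊆ closure {x ∈ O | SomeE μ i a b f ε J (T x)}) (x : X) (hx : x ∈ O) :
    AllE μ i a b f ε J (T x) := by
  have key : ∀ η : ℝ, 0 < η → AllE μ i a b f (ε + 2 * η + 2 * η) J (T x) := by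
    intro η hη
    obtain ⟨_, h1, y, rfl⟩ := Metric.dense_iff.1 hT f η hη
    rw [Metric.mem_ball, dist_eq_norm] at h1
    have h2 : O ⊆ closure {x ∈ O | SomeE μ i a b (T y) (ε + 2 * η) J (T x)} := by
      refine hd.trans (closure_mono fun x' hx' => ⟨hx'.1, ?_⟩)
      exact h.some_of_near hx'.2 h1.le
    have h3 : AllE μ i a b (T y) (ε + 2 * η) J (T x) :=
      h.all_of_lip hJ hO y (fun x' _ t ht j hj => h.lipO hJ y h2 x' t ht j hj) x hx
    rw [norm_sub_rev] at h1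
    exact h.all_of_near h3 h1.le
  intro j hj v hv
  refine le_of_forall_pos_le_add fun η hη => ?_
  have h1 := key (η / 4) (by positivity) j hj v hv
  linarith

/-- **Zero-one law.** -/
theorem Ctx.zeroOne (h : Ctx μ i a b) (hT : DenseRange T) {O : Set X} (hO : IsOpen O) :
    ∃ O₁ R : Set X, IsOpen O₁ ∧ O₁ ⊆ O ∧ R ⊆ O₁ ∧ IsMeagre (O₁ \ R) ∧
      (∀ x ∈ R, ∀ (f : C(M, ℝ)) (ε : ℝ), 0 < ε → ∃ (W : Set X) (J : ℕ), IsOpen W ∧ x ∈ W ∧
        ∀ x' ∈ W, AllE μ i a b f ε J (T x')) ∧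
      IsMeagre {x ∈ O \ O₁ | ∃ (e : ℕ → H) (E : ℕ → ℝ), Eg a (b (T x)) e E ∧
        ∀ f : C(M, ℝ), Tendsto (fun j => kap μ i f (T x) (e j)) atTop (𝓝 (avg μ f (T x)))} ∧
      ∀ W : Set X, IsOpen W → W.Nonempty → W ⊆ O \ O₁ → ∃ (W' : Set X) (f : C(M, ℝ)) (ε : ℝ),
        IsOpen W' ∧ W'.Nonempty ∧ W' ⊆ W ∧ 0 < ε ∧
        IsMeagre {x ∈ W' | ∃ (e : ℕ → H) (E : ℕ → ℝ), Eg a (b (T x)) e E ∧
          ∀ᶠ j in atTop, |kap μ i f (T x) (e j) - avg μ f (T x)| ≤ ε} := by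
  obtain ⟨J₀, hJ₀⟩ := h.J0
  let F : ℕ → C(M, ℝ) := TopologicalSpace.denseSeq C(M, ℝ)
  have hF : DenseRange F := TopologicalSpace.denseRange_denseSeq _
  let V : ℕ → ℕ → Set X := fun n m => ⋃₀ {W : Set X | IsOpen W ∧ W ⊆ O ∧
    ∃ J : ℕ, ∀ x ∈ W, AllE μ i a b (F n) (1 / ((m : ℝ) + 1)) J (T x)}
  have hVo : ∀ n m, IsOpen (V n m) := fun n m => isOpen_sUnion fun W hW => hW.1
  let O₂ : Set X := ⋃ n, ⋃ m, O \ closure (V n m)
  have hO₂ : IsOpen O₂ := isOpen_iUnion fun n => isOpen_iUnion fun m =>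
    hO.sdiff isClosed_closure
  have hO₂O : O₂ ⊆ O := iUnion_subset fun n => iUnion_subset fun m => diff_subset
  -- the sets of metrics with a uniform bound in the bad part are nowhere dense
  let S : ℕ → ℕ → ℕ → Set X := fun n m J =>
    {x ∈ O \ closure (V n m) | SomeE μ i a b (F n) (1 / ((m : ℝ) + 1)) (J₀ + J) (T x)}
  have hS : ∀ n m J, IsMeagre (S n m J) := by
    intro n m J
    refine IsNowhereDense.isMeagre ?_
    unfold IsNowhereDense
    by_contra hcon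
    obtain ⟨x₀, hx₀⟩ := nonempty_iff_ne_empty.2 hcon
    have hU : IsOpen (O \ closure (V n m)) := hO.sdiff isClosed_closure
    set W := interior (closure (S n m J)) ∩ (O \ closure (V n m)) with hW
    have hWo : IsOpen W := isOpen_interior.inter hU
    have hWne : W.Nonempty := by
      obtain ⟨x₁, h2, h3⟩ := mem_closure_iff.1 (interior_subset hx₀) _ isOpen_interior hx₀
      exact ⟨x₁, h2, h3.1⟩
    have hWd : W ⊆ closure {x ∈ W | SomeE μ i a b (F n) (1 / ((m : ℝ) + 1)) (J₀ + J) (T x)} := by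
      intro x hx
      rw [mem_closure_iff]
      intro N hN hxN
      obtain ⟨x₁, h2, h3⟩ := mem_closure_iff.1 (interior_subset hx.1) _ (hN.inter hWo) ⟨hxN, hx⟩
      exact ⟨x₁, h2.1, h2.2, h3.2⟩
    have hall := h.dense_all hT (J := J₀ + J) (fun j hj ψ => hJ₀ j (by omega) ψ) hWo (F n) hWd
    obtain ⟨x₁, hx₁⟩ := hWne
    have h2 : x₁ ∈ V n m := mem_sUnion.2 ⟨W, ⟨hWo, fun x hx => hx.2.1, J₀ + J, hall⟩, hx₁⟩
    exact hx₁.2.2 (subset_closure h2)
  have hS' : ∀ n m (W : Set X), W ⊆ O \ closure (V n m) →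
      IsMeagre {x ∈ W | ∃ (e : ℕ → H) (E : ℕ → ℝ), Eg a (b (T x)) e E ∧
        ∀ᶠ j in atTop, |kap μ i (F n) (T x) (e j) - avg μ (F n) (T x)| ≤ 1 / ((m : ℝ) + 1)} := by
    intro n m W hW
    refine IsMeagre.mono ?_ (isMeagre_iUnion fun J => hS n m J)
    rintro x ⟨hx, e, E, hE, hev⟩
    obtain ⟨J, hJ⟩ := eventually_atTop.1 hev
    exact mem_iUnion.2 ⟨J, hW hx, e, E, hE, fun j hj => hJ j (by omega)⟩
  refine ⟨O \ closure O₂, (O \ closure O₂) ∩ ⋂ n, ⋂ m, V n m, hO.sdiff isClosed_closure,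
    diff_subset, inter_subset_left, ?_, ?_, ?_, ?_⟩
  · -- the exceptional set in the good part
    have h1 : (O \ closure O₂) \ ((O \ closure O₂) ∩ ⋂ n, ⋂ m, V n m) ⊆
        ⋃ n, ⋃ m, frontier (V n m) := by
      rintro x ⟨hx, hx'⟩
      have h2 : x ∉ ⋂ n, ⋂ m, V n m := fun h3 => hx' ⟨hx, h3⟩
      simp only [mem_iInter, not_forall] at h2
      obtain ⟨n, m, h3⟩ := h2
      refine mem_iUnion.2 ⟨n, mem_iUnion.2 ⟨m, ?_⟩⟩
      rw [(hVo n m).frontier_eq]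
      refine ⟨?_, h3⟩
      by_contra h4
      exact hx.2 (subset_closure (mem_iUnion.2 ⟨n, mem_iUnion.2 ⟨m, hx.1, h4⟩⟩))
    refine IsMeagre.mono h1 (isMeagre_iUnion fun n => isMeagre_iUnion fun m => ?_)
    refine IsNowhereDense.isMeagre ?_
    rw [IsClosed.isNowhereDense_iff isClosed_frontier, ← frontier_compl]
    exact interior_frontier (hVo n m).isClosed_compl
  · -- local uniformity
    rintro x ⟨hx, hxV⟩ f ε hε
    obtain ⟨_, h1, n, rfl⟩ := Metric.dense_iff.1 hF f (ε / 4) (by positivity)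
    rw [Metric.mem_ball, dist_eq_norm, norm_sub_rev] at h1
    obtain ⟨m, hm⟩ := exists_nat_one_div_lt (show (0 : ℝ) < ε / 2 by positivity)
    simp only [mem_iInter] at hxV
    obtain ⟨W, ⟨hWo, -, J, hW⟩, hxW⟩ := hxV n m
    refine ⟨W, J, hWo, hxW, fun x' hx' j hj v hv => ?_⟩
    have h2 := h.all_of_near (hW x' hx') h1.le j hj v hv
    linarith
  · -- the bad part
    set G := {x ∈ O \ (O \ closure O₂) | ∃ (e : ℕ → H) (E : ℕ → ℝ), Eg a (b (T x)) e E ∧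
        ∀ f : C(M, ℝ), Tendsto (fun j => kap μ i f (T x) (e j)) atTop (𝓝 (avg μ f (T x)))} with hG
    have h1 : G ⊆ frontier O₂ ∪ ⋃ n, ⋃ m, ⋃ J, S n m J := by
      rintro x ⟨⟨hxO, hx⟩, e, E, hE, hlim⟩
      have hx2 : x ∈ closure O₂ := by
        by_contra h2
        exact hx ⟨hxO, h2⟩
      by_cases h2 : x ∈ O₂
      · right
        obtain ⟨n, h3⟩ := mem_iUnion.1 h2
        obtain ⟨m, h4⟩ := mem_iUnion.1 h3
        have h5 := hlim (F n)
        have h6 : (0 : ℝ) < 1 / ((m : ℝ) + 1) := by positivity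
        obtain ⟨J, hJ⟩ := Metric.tendsto_atTop.1 h5 _ h6
        refine mem_iUnion.2 ⟨n, mem_iUnion.2 ⟨m, mem_iUnion.2 ⟨J, h4, e, E, hE, fun j hj => ?_⟩⟩⟩
        have h7 := hJ j (by omega)
        rw [Real.dist_eq] at h7
        exact h7.le
      · left
        rw [hO₂.frontier_eq]
        exact ⟨hx2, h2⟩
    refine IsMeagre.mono h1 (IsMeagre.union ?_ (isMeagre_iUnion fun n => isMeagre_iUnion fun m =>
      isMeagre_iUnion fun J => hS n m J))
    refine IsNowhereDense.isMeagre ?_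
    rw [IsClosed.isNowhereDense_iff isClosed_frontier, ← frontier_compl]
    exact interior_frontier hO₂.isClosed_compl
  · -- locally uniform failure
    intro W hW hWne hWO
    obtain ⟨x, hx⟩ := hWne
    have hx2 : x ∈ closure O₂ := by
      by_contra h2
      exact (hWO hx).2 ⟨(hWO hx).1, h2⟩
    obtain ⟨x₁, h2, h3⟩ := mem_closure_iff.1 hx2 W hW hx
    obtain ⟨n, h4⟩ := mem_iUnion.1 h3
    obtain ⟨m, h5⟩ := mem_iUnion.1 h4
    exact ⟨W ∩ (O \ closure (V n m)), F n, 1 / ((m : ℝ) + 1),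
      hW.inter (hO.sdiff isClosed_closure), ⟨x₁, h2, h5⟩, inter_subset_left, by positivity,
      hS' n m _ inter_subset_right⟩

/-- **Generic metrics.** -/
theorem Ctx.generic (h : Ctx μ i a b) (hT : DenseRange T) {J : ℕ → ℕ}
    (hJ : Tendsto J atTop atTop) :
    {x : X | ∀ (f : C(M, ℝ)) (ε : ℝ), 0 < ε → ∀ K : ℕ, ∃ k, K ≤ k ∧ ∀ v, IsV a b (T x) (J k) v →
      avg μ f (T x) - ε ≤ kap μ i f (T x) v} ∈ residual X := by
  let F : ℕ → C(M, ℝ) := TopologicalSpace.denseSeq C(M, ℝ)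
  have hF : DenseRange F := TopologicalSpace.denseRange_denseSeq _
  let U : ℕ → ℕ → ℕ → Set X := fun n m K => {x | ∃ k, K ≤ k ∧ ∀ v, IsV a b (T x) (J k) v →
      avg μ (F n) (T x) - 1 / ((m : ℝ) + 1) ≤ kap μ i (F n) (T x) v}
  have hdense : ∀ n m K, Dense (interior (U n m K)) := by
    intro n m K
    rw [dense_iff_inter_open]
    rintro N hN ⟨x, hxN⟩
    set ε : ℝ := 1 / ((m : ℝ) + 1) with hε
    have hε0 : 0 < ε := by positivity
    obtain ⟨_, h1, y, rfl⟩ := Metric.dense_iff.1 hT (F n) (ε / 8) (by positivity)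
    rw [Metric.mem_ball, dist_eq_norm] at h1
    obtain ⟨δ, hδ, hseg⟩ := seg x y hN hxN
    obtain ⟨t, ht0, htδ, k, hk, hv⟩ := h.dens (T x) (T y) hJ (show 0 < ε / 4 by positivity) K hδ
    refine ⟨x + t • y, hseg t (by rw [abs_of_pos ht0]; exact htδ), ?_⟩
    -- the estimate at the centre
    have hxt : T (x + t • y) = T x + t • T y := by rw [map_add, map_smul]
    set φ₁ := T (x + t • y) with hφ₁
    rw [← hxt] at hv
    have h2 : ∀ v, IsV a b φ₁ (J k) v → avg μ (F n) φ₁ - ε / 2 ≤ kap μ i (F n) φ₁ v := by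
      intro v hvv
      have h3 := hv v hvv
      have h4 := (abs_le.1 (h.kap_sub_le (T y) (F n) φ₁ hvv)).2
      have h5 := (abs_le.1 (avg_sub_le (μ := μ) (T y) (F n) φ₁)).1
      linarith
    -- the neighbourhood
    obtain ⟨L, δ₀, hL, hδ₀, hn⟩ := h.near φ₁ (J k)
    have hc := (avg_cont (μ := μ) (F n)).tendsto φ₁
    rw [Metric.tendsto_nhds_nhds] at hc
    obtain ⟨δ₁, hδ₁, hc⟩ := hc (ε / 4) (by positivity)
    have hr : 0 < min (min δ₀ δ₁) (ε / 4 / ((‖F n‖ + 1) * L)) := by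
      refine lt_min (lt_min hδ₀ hδ₁) ?_
      positivity
    rw [mem_interior_iff_mem_nhds]
    have h6 : T ⁻¹' (Metric.ball φ₁ (min (min δ₀ δ₁) (ε / 4 / ((‖F n‖ + 1) * L)))) ∈
        𝓝 (x + t • y) := T.continuous.continuousAt.preimage_mem_nhds (Metric.ball_mem_nhds _ hr)
    filter_upwards [h6] with x' hx'
    refine ⟨k, hk, fun v hvv => ?_⟩
    have hx'' : dist (T x') φ₁ < min (min δ₀ δ₁) (ε / 4 / ((‖F n‖ + 1) * L)) := hx'
    have h7 : dist (T x') φ₁ < δ₀ := lt_of_lt_of_le hx'' ((min_le_left _ _).trans (min_le_left _ _))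
    have h8 : dist (T x') φ₁ < δ₁ :=
      lt_of_lt_of_le hx'' ((min_le_left _ _).trans (min_le_right _ _))
    have h9 : dist (T x') φ₁ < ε / 4 / ((‖F n‖ + 1) * L) := lt_of_lt_of_le hx'' (min_le_right _ _)
    rw [dist_eq_norm] at h7 h9
    obtain ⟨w, hw, hwd⟩ := hn (T x') h7.le v hvv
    have h10 := (abs_le.1 (hwd (F n))).1
    have h11 : ‖F n‖ * (L * ‖T x' - φ₁‖) ≤ ε / 4 := by
      rw [lt_div_iff₀ (by positivity)] at h9
      have h12 : 0 ≤ ‖T x' - φ₁‖ * L := by positivity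
      nlinarith [norm_nonneg (F n)]
    have h12 := hc h8
    rw [Real.dist_eq] at h12
    have h13 := (abs_lt.1 h12).2
    have h14 := h2 w hw
    show avg μ (F n) (T x') - ε ≤ kap μ i (F n) (T x') v
    linarith
  have hres : (⋂ n, ⋂ m, ⋂ K, interior (U n m K)) ∈ residual X := by
    refine countable_iInter_mem.2 fun n => countable_iInter_mem.2 fun m =>
      countable_iInter_mem.2 fun K => residual_of_dense_open isOpen_interior (hdense n m K)
  refine mem_of_superset hres fun x hx f ε hε K => ?_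
  obtain ⟨_, h1, n, rfl⟩ := Metric.dense_iff.1 hF f (ε / 4) (by positivity)
  rw [Metric.mem_ball, dist_eq_norm] at h1
  obtain ⟨m, hm⟩ := exists_nat_one_div_lt (show (0 : ℝ) < ε / 2 by positivity)
  simp only [mem_iInter] at hx
  obtain ⟨k, hk, hv⟩ := interior_subset (hx n m K)
  refine ⟨k, hk, fun v hvv => ?_⟩
  have h2 := hv v hvv
  have h3 := (abs_le.1 (h.kap_sub_le (F n) f (T x) hvv)).2
  have h4 := (abs_le.1 (avg_sub_le (μ := μ) (F n) f (T x))).1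
  linarith

end X

end Pool.Agent.K4H66.QU
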