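import Pool.Agent.K4H66.QU.Ab

/-!
# Stability of eigenspaces (helper66)
-/

set_option autoImplicit false

open Set Filter Topology

noncomputable section

namespace Pool.Agent.K4H66.QU

open Pool.Agent.Y262.QE Pool.Agent.Y264.QR

section forms

variable {H : Type} [NormedAddCommGroup H] [InnerProductSpace ℝ H]

/-- An eigenvector for a nearby form is near an eigenvector, with a linear bound. -/
theorem stab {a b0 : H →L[ℝ] H →L[ℝ] ℝ} (hF : Fm a b0) {e : ℕ → H} {E : ℕ → ℝ}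
    (hE : Eg a b0 e E) (j : ℕ) : ∃ L η₀ : ℝ, 0 < L ∧ 0 < η₀ ∧
    ∀ (b' : H →L[ℝ] H →L[ℝ] ℝ), (∀ u v, b' u v = b' v u) → ∀ η : ℝ, 0 ≤ η → η ≤ η₀ →
    (∀ v, |b' v v - b0 v v| ≤ η * b0 v v) → ∀ (E' : ℝ) (v : H), |E' - E j| ≤ η * E j →
    (∀ z, a v z = E' * b' v z) → b' v v = 1 →
    ∃ w, b0 w w = 1 ∧ (∀ z, a w z = E j * b0 w z) ∧
      ∀ (k : H →L[ℝ] H →L[ℝ] ℝ) (K : ℝ), (∀ u v, k u v = k v u) → (∀ v, |k v v| ≤ K * b0 v v) →
        |k v v - k w w| ≤ K * (L * η) := by
  classical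
  have hE0 : ∀ l, 0 ≤ E l := by
    intro l
    have h1 := hF.na (e l)
    rw [hE.eig, hE.orth, if_pos rfl, mul_one] at h1
    exact h1
  obtain ⟨C, g, hC, hg, hg1, hgap⟩ := gap hE j
  set lam := E j with hlam
  have hlam0 : 0 ≤ lam := hE0 j
  set Λ : ℝ := 4 * lam / g with hΛ
  have hΛ0 : 0 ≤ Λ := by positivity
  refine ⟨5 * Λ + 2, min (1 / 2) (min (g / (2 * lam + 1)) (1 / (2 * Λ + 1))), by positivity, ?_, ?_⟩
  · refine lt_min (by norm_num) (lt_min ?_ ?_) <;> positivity
  intro b' sb' η hη0 hη hbb E' v hE' hav hv1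
  have hη1 : η ≤ 1 / 2 := hη.trans (min_le_left _ _)
  have hη2 : η * lam ≤ g / 2 := by
    have h1 : η ≤ g / (2 * lam + 1) := hη.trans ((min_le_right _ _).trans (min_le_left _ _))
    rw [le_div_iff₀ (by positivity)] at h1
    nlinarith
  have hη3 : Λ * η ≤ 1 / 2 := by
    have h1 : η ≤ 1 / (2 * Λ + 1) := hη.trans ((min_le_right _ _).trans (min_le_right _ _))
    rw [le_div_iff₀ (by positivity)] at h1
    nlinarith
  -- the difference of the forms
  let r : H →L[ℝ] H →L[ℝ] ℝ := b' - b0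
  have hr : ∀ u w, r u w = b' u w - b0 u w := fun u w => rfl
  have sr : ∀ u w, r u w = r w u := fun u w => by rw [hr, hr, sb', hF.sb]
  have hrb : ∀ w, |r w w| ≤ η * b0 w w := fun w => by rw [hr]; exact hbb w
  set V := b0 v v with hV
  have hV0 : 0 ≤ V := hF.nb v
  have hV1 : |1 - V| ≤ η * V := by
    have := hbb v
    rwa [hv1] at this
  have hV2 : V ≤ 2 := by
    have := (abs_le.1 hV1).1
    nlinarith
  have hVp : 0 < V := by
    have := (abs_le.1 hV1).2
    by_contra hcon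
    have hV3 : V = 0 := le_antisymm (not_lt.1 hcon) hV0
    rw [hV3] at this
    linarith
  let c : ℕ → ℝ := fun l => b0 v (e l)
  -- the coefficients outside the cluster
  have hcoef : ∀ l, l ∉ C → (c l) ^ 2 ≤ Λ ^ 2 * (r v (e l)) ^ 2 := by
    intro l hl
    have h1 : a v (e l) = E' * b' v (e l) := hav _
    have h2 : a v (e l) = E l * c l := by
      rw [hF.sa, hE.eig, hF.sb]
    have h3 : (E l - E') * c l = E' * r v (e l) := by
      have h4 : b' v (e l) = r v (e l) + c l := by rw [hr]; simp only [c]; ring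
      rw [h2, h4] at h1
      linarith
    have h5 : g / 2 ≤ |E l - E'| := by
      have h6 := hgap l hl
      have h7 : |E l - lam| ≤ |E l - E'| + |E' - lam| := abs_sub_le _ _ _
      linarith
    have h8 : |E'| ≤ 2 * lam := by
      have h9 : |E'| ≤ |E' - lam| + |lam| := by
        have := abs_add_le (E' - lam) lam
        rwa [sub_add_cancel] at this
      rw [abs_of_nonneg hlam0] at h9
      nlinarith
    have h10 : g / 2 * |c l| ≤ 2 * lam * |r v (e l)| := by
      calc g / 2 * |c l| ≤ |E l - E'| * |c l| := mul_le_mul_of_nonneg_right h5 (abs_nonneg _)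
        _ = |E'| * |r v (e l)| := by rw [← abs_mul, h3, abs_mul]
        _ ≤ 2 * lam * |r v (e l)| := mul_le_mul_of_nonneg_right h8 (abs_nonneg _)
    have h11 : |c l| ≤ Λ * |r v (e l)| := by
      rw [hΛ, div_mul_eq_mul_div, le_div_iff₀ hg]
      nlinarith
    calc (c l) ^ 2 = |c l| ^ 2 := (sq_abs _).symm
      _ ≤ (Λ * |r v (e l)|) ^ 2 := pow_le_pow_left₀ (abs_nonneg _) h11 2
      _ = Λ ^ 2 * (r v (e l)) ^ 2 := by rw [mul_pow, sq_abs]
  set β := ∑ l ∈ C, (c l) ^ 2 with hβ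
  set w' : H := ∑ l ∈ C, c l • e l with hw'
  have hw'w' : b0 w' w' = β := fsum_self b0 C c hE.orth
  have hvw' : b0 v w' = β := by
    rw [hw', fsum_right]
    refine Finset.sum_congr rfl fun l _ => ?_
    simp only [c]
    ring
  have hρ : V - β ≤ (Λ * η) ^ 2 * V := by
    have h1 : ∀ F : Finset ℕ, ∑ l ∈ F, (c l) ^ 2 ≤ β + (Λ * η) ^ 2 * V := by
      intro F
      have h2 : ∑ l ∈ F, (c l) ^ 2 ≤ ∑ l ∈ C ∪ (F \ C), (c l) ^ 2 := by
        refine Finset.sum_le_sum_of_subset_of_nonneg ?_ fun _ _ _ => sq_nonneg _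
        intro l hl
        by_cases h : l ∈ C
        · exact Finset.mem_union_left _ h
        · exact Finset.mem_union_right _ (Finset.mem_sdiff.2 ⟨hl, h⟩)
      have h3 : ∑ l ∈ C ∪ (F \ C), (c l) ^ 2 = β + ∑ l ∈ F \ C, (c l) ^ 2 :=
        Finset.sum_union Finset.disjoint_sdiff
      have h4 : ∑ l ∈ F \ C, (c l) ^ 2 ≤ Λ ^ 2 * ∑ l ∈ F \ C, (r v (e l)) ^ 2 := by
        rw [Finset.mul_sum]
        refine Finset.sum_le_sum fun l hl => ?_
        exact hcoef l (Finset.mem_sdiff.1 hl).2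
      have h5 := bessel sr hF.sb hrb hE.orth v (F \ C)
      have h6 : Λ ^ 2 * ∑ l ∈ F \ C, (r v (e l)) ^ 2 ≤ Λ ^ 2 * (η ^ 2 * V) :=
        mul_le_mul_of_nonneg_left h5 (sq_nonneg _)
      calc ∑ l ∈ F, (c l) ^ 2 ≤ β + ∑ l ∈ F \ C, (c l) ^ 2 := by rw [← h3]; exact h2
        _ ≤ β + Λ ^ 2 * (η ^ 2 * V) := by linarith
        _ = β + (Λ * η) ^ 2 * V := by ring
    have h2 : V ≤ β + (Λ * η) ^ 2 * V := le_of_tendsto' (hE.sum v) h1
    linarith
  have hβV : β ≤ V := sum_le_hasSum C (fun _ _ => sq_nonneg _) (hE.sum v)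
  have hΛη0 : 0 ≤ Λ * η := by positivity
  have hq : (Λ * η) ^ 2 ≤ Λ * η / 2 := by nlinarith
  have hq2 : (Λ * η) ^ 2 ≤ 1 / 4 := by nlinarith
  have hβp : 0 < β := by nlinarith
  have hβ1 : |β - 1| ≤ Λ * η + 2 * η := by
    have h1 := (abs_le.1 hV1).1
    have h2 := (abs_le.1 hV1).2
    have h3 : (Λ * η) ^ 2 * V ≤ Λ * η := by nlinarith
    have h4 : η * V ≤ 2 * η := by nlinarith
    rw [abs_le]
    constructor <;> linarith
  have haw' : ∀ z, a w' z = lam * b0 w' z := by
    intro z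
    rw [hw', fsum_left, fsum_left, Finset.mul_sum]
    refine Finset.sum_congr rfl fun l hl => ?_
    rw [hE.eig, (hC l).1 hl]
    ring
  set s := Real.sqrt β with hs
  have hs2 : s * s = β := Real.mul_self_sqrt hβp.le
  have hsp : 0 < s := Real.sqrt_pos.2 hβp
  refine ⟨s⁻¹ • w', ?_, ?_, ?_⟩
  · simp only [map_smul, ContinuousLinearMap.smul_apply, smul_eq_mul, hw'w']
    rw [← hs2]
    field_simp
  · intro z
    simp only [map_smul, ContinuousLinearMap.smul_apply, smul_eq_mul, haw']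
    ring
  · intro k K sk hk
    have hK : 0 ≤ K := by
      have h1 := hk (e 0)
      rw [hE.orth, if_pos rfl, mul_one] at h1
      exact (abs_nonneg _).trans h1
    have e1 : k (s⁻¹ • w') (s⁻¹ • w') = k w' w' / β := by
      simp only [map_smul, ContinuousLinearMap.smul_apply, smul_eq_mul]
      rw [← hs2]
      field_simp
    have e2 : k v v - k w' w' = k (v - w') (v + w') := by
      simp only [map_sub, map_add, ContinuousLinearMap.sub_apply, sk w' v]
      ring
    have e3 : b0 (v - w') (v - w') = V - β := by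
      simp only [map_sub, ContinuousLinearMap.sub_apply, hF.sb w' v, hvw', hw'w']
      ring
    have e4 : b0 (v + w') (v + w') = V + 3 * β := by
      simp only [map_add, ContinuousLinearMap.add_apply, hF.sb w' v, hvw', hw'w']
      ring
    have h1 : |k v v - k w' w'| ≤ K * (4 * (Λ * η)) := by
      rw [e2]
      have h2 := cs sk hF.sb hk (v - w') (v + w')
      rw [e3, e4] at h2
      have h3 : (V - β) * (V + 3 * β) ≤ (4 * (Λ * η)) ^ 2 := by
        have h4 : V - β ≤ 2 * (Λ * η) ^ 2 := by nlinarith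
        have h5 : V + 3 * β ≤ 8 := by linarith
        have h6 : 0 ≤ V - β := by linarith
        have h7 : 0 ≤ V + 3 * β := by linarith
        calc (V - β) * (V + 3 * β) ≤ (2 * (Λ * η) ^ 2) * 8 := by
              apply mul_le_mul h4 h5 h7 (by positivity)
          _ = (4 * (Λ * η)) ^ 2 := by ring
      have h4 : (k (v - w') (v + w')) ^ 2 ≤ (K * (4 * (Λ * η))) ^ 2 := by
        calc _ ≤ K ^ 2 * ((V - β) * (V + 3 * β)) := h2
          _ ≤ K ^ 2 * (4 * (Λ * η)) ^ 2 := mul_le_mul_of_nonneg_left h3 (sq_nonneg _)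
          _ = (K * (4 * (Λ * η))) ^ 2 := by ring
      exact abs_le_of_sq_le_sq h4 (by positivity)
    have h2 : |k w' w' - k w' w' / β| ≤ K * (Λ * η + 2 * η) := by
      have h3 : k w' w' - k w' w' / β = (k w' w' / β) * (β - 1) := by
        field_simp
      rw [h3, abs_mul]
      have h4 : |k w' w' / β| ≤ K := by
        rw [abs_div, abs_of_pos hβp, div_le_iff₀ hβp]
        have := hk w'
        rwa [hw'w'] at this
      exact mul_le_mul h4 hβ1 (abs_nonneg _) hK
    rw [e1]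
    calc |k v v - k w' w' / β| ≤ |k v v - k w' w'| + |k w' w' - k w' w' / β| := abs_sub_le _ _ _
      _ ≤ K * (4 * (Λ * η)) + K * (Λ * η + 2 * η) := add_le_add h1 h2
      _ = K * ((5 * Λ + 2) * η) := by ring

end forms

end Pool.Agent.K4H66.QU
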